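import Mathlib
import Pool.Agent.H10.EP.Cyc

/-!
A cyclic permutation of at least three elements has no fixed point and no 2-cycle, and the exchange
of two arcs.
-/

set_option linter.unusedSectionVars false

namespace Pool.Agent.H10.SF

open Equiv Equiv.Perm

theorem no_two {V : Type} [Fintype V] [DecidableEq V]
    (s : Perm V) (hs : ∀ x y, SameCycle s x y) (hV : 3 ≤ Fintype.card V) (k : V) :
    s (s k) ≠ k := by
  intro hk
  have h1 : ∀ i : ℕ, (s ^ i) k = k ∨ (s ^ i) k = s k := by
    intro i
    induction i with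
    | zero => left; rfl
    | succ i ih =>
      rw [pow_succ', mul_apply]
      rcases ih with ih | ih
      · right; rw [ih]
      · left; rw [ih, hk]
  have h2 : (Finset.univ : Finset V) ⊆ {k, s k} := by
    intro y _
    obtain ⟨i, _, hi⟩ := (hs k y).exists_pow_eq'
    rcases h1 i with h | h
    · rw [h] at hi; simp [hi]
    · rw [h] at hi; simp [hi]
  have h3 := Finset.card_le_card h2
  have h4 : ({k, s k} : Finset V).card ≤ 2 := Finset.card_le_two
  rw [Finset.card_univ] at h3
  omega

theorem no_fix {V : Type} [Fintype V] [DecidableEq V]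
    (s : Perm V) (hs : ∀ x y, SameCycle s x y) (hV : 3 ≤ Fintype.card V) (k : V) :
    s k ≠ k := by
  intro hk
  apply no_two s hs hV k
  rw [hk, hk]

theorem exchange {V ι : Type} [Fintype V] [DecidableEq V] (cl : V → ι)
    (s : Perm V) (hs : ∀ x y, SameCycle s x y) (hV : 3 ≤ Fintype.card V)
    (x y : V) (hx : cl x = cl (s x)) (hy : cl y = cl (s y)) (hxy : cl x = cl y)
    (h1 : y ≠ x) (h2 : y ≠ s x) (h3 : y ≠ s (s x)) (h4 : x ≠ s y) (h5 : x ≠ s (s y)) :
    ∃ φ : Perm V, Pool.Agent.H47.TCF.nc φ = 2 ∧ (∀ k, φ (φ k) ≠ k) ∧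
      (∀ k, φ k = s k ∨ (φ k ≠ k ∧ cl (φ k) = cl k)) := by
  have hfix := no_fix s hs hV
  have htwo := no_two s hs hV
  have : Nonempty V := ⟨x⟩
  have hφx : (swap (s x) (s y) * s) x = s y := by rw [mul_apply, swap_apply_left]
  have hφy : (swap (s x) (s y) * s) y = s x := by rw [mul_apply, swap_apply_right]
  have hφk : ∀ k, k ≠ x → k ≠ y → (swap (s x) (s y) * s) k = s k := by
    intro k hkx hky
    rw [mul_apply, swap_apply_of_ne_of_ne (s.injective.ne hkx) (s.injective.ne hky)]
  refine ⟨swap (s x) (s y) * s, ?_, ?_, ?_⟩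
  · have h := Pool.Agent.H47.TCF.nc_split (φ := s) (a := s x) (b := s y)
      (s.injective.ne h1.symm) (hs _ _)
    rw [h, Pool.Agent.H47.TCF.nc_eq_one hs]
  · intro k hk
    by_cases hkx : k = x
    · subst hkx
      rw [hφx] at hk
      rw [hφk (s y) h4.symm (hfix y)] at hk
      exact h5 hk.symm
    by_cases hky : k = y
    · subst hky
      rw [hφy] at hk
      rw [hφk (s x) (hfix x) h2.symm] at hk
      exact h3 hk.symm
    rw [hφk k hkx hky] at hk
    by_cases hsx : s k = x
    · rw [hsx, hφx] at hk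
      apply h5
      rw [hk, hsx]
    by_cases hsy : s k = y
    · rw [hsy, hφy] at hk
      apply h3
      rw [hk, hsy]
    rw [hφk (s k) hsx hsy] at hk
    exact htwo k hk
  · intro k
    by_cases hkx : k = x
    · subst hkx
      right
      rw [hφx]
      exact ⟨h4.symm, by rw [← hy, hxy]⟩
    by_cases hky : k = y
    · subst hky
      right
      rw [hφy]
      exact ⟨h2.symm, by rw [← hx, hxy]⟩
    left
    exact hφk k hkx hky

end Pool.Agent.H10.SF
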