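import Mathlib

set_option autoImplicit false

namespace Pool.Agent.H10.SF

open Equiv Equiv.Perm

/-- The number of permutations which choose, for every `l`, one of two different values, is
even. -/
theorem even_two_choices {L : Type} [Fintype L] [DecidableEq L] [Nonempty L] (h a : L → L)
    (hne : ∀ l, h l ≠ a l) :
    ((Finset.univ.filter (fun σ : Perm L => ∀ l, σ l = h l ∨ σ l = a l)).card : ZMod 2) = 0 := by
  classical
  set M : Matrix L L (ZMod 2) := fun i j => if i = h j ∨ i = a j then 1 else 0 with hM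
  have hdet : M.det = 0 := by
    apply Matrix.exists_vecMul_eq_zero_iff.mp
    refine ⟨fun _ => 1, ?_, ?_⟩
    · intro h0
      have := congrFun h0 (Classical.arbitrary L)
      simp at this
    · funext j
      simp only [Matrix.vecMul, dotProduct, one_mul, Pi.zero_apply, hM]
      rw [Finset.sum_ite, Finset.sum_const_zero, add_zero, Finset.sum_const, nsmul_eq_mul, mul_one]
      have hc : (Finset.univ.filter (fun i : L => i = h j ∨ i = a j)) = {h j, a j} := by
        ext i; simp
      rw [hc, Finset.card_pair (hne j)]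
      rfl
  rw [Matrix.det_apply] at hdet
  rw [← hdet, Finset.card_filter, Nat.cast_sum]
  apply Finset.sum_congr rfl
  intro σ _
  have hs : ∀ u : ℤˣ, ∀ z : ZMod 2, u • z = z := by
    intro u z
    rcases Int.units_eq_one_or u with rfl | rfl
    · simp
    · rw [Units.neg_smul, one_smul]
      exact ZMod.neg_eq_self_mod_two z
  rw [hs]
  by_cases hσ : ∀ l, σ l = h l ∨ σ l = a l
  · rw [if_pos hσ]
    simp only [hM, Nat.cast_one]
    symm
    apply Finset.prod_eq_one
    intro l _
    rw [if_pos (hσ l)]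
  · rw [if_neg hσ]
    push Not at hσ
    obtain ⟨l, hl⟩ := hσ
    simp only [hM, Nat.cast_zero]
    symm
    apply Finset.prod_eq_zero (Finset.mem_univ l)
    rw [if_neg]
    push Not
    exact hl

/-- Reversing everything outside the cycle of `l0`. -/
theorem kap_facts {L : Type} [Fintype L] [DecidableEq L] (l0 : L) (σ τ π κ σ' τ' : Perm L)
    [DecidableRel (SameCycle π)] [DecidableRel (SameCycle (σ'⁻¹ * τ'))]
    (hπ : π = σ⁻¹ * τ) (hκ : κ = π.cycleOf l0) (hσ' : σ' = τ * κ⁻¹) (hτ' : τ' = σ * κ) :
    (∀ y, SameCycle π l0 y → σ' y = σ y ∧ τ' y = τ y) ∧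
    (∀ y, ¬ SameCycle π l0 y → σ' y = τ y ∧ τ' y = σ y) ∧
    (∀ y, SameCycle (σ'⁻¹ * τ') l0 y ↔ SameCycle π l0 y) ∧
    (σ'⁻¹ * τ').cycleOf l0 = κ := by
  have hτπ : ∀ y, σ (π y) = τ y := by
    intro y; simp [hπ]
  have h1 : ∀ y, SameCycle π l0 y → σ' y = σ y ∧ τ' y = τ y := by
    intro y hy
    have hinv : κ⁻¹ y = π⁻¹ y := by
      rw [Equiv.Perm.inv_eq_iff_eq]
      have hy2 : SameCycle π l0 (π⁻¹ y) := by
        rw [← Equiv.Perm.sameCycle_apply_right]
        simpa using hy
      rw [hκ, hy2.cycleOf_apply]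
      simp
    refine ⟨?_, ?_⟩
    · rw [hσ', Equiv.Perm.mul_apply, hinv, ← hτπ]
      simp
    · rw [hτ', Equiv.Perm.mul_apply, hκ, hy.cycleOf_apply, hτπ]
  have h2 : ∀ y, ¬ SameCycle π l0 y → σ' y = τ y ∧ τ' y = σ y := by
    intro y hy
    have hk : κ y = y := by rw [hκ]; exact Equiv.Perm.cycleOf_apply_of_not_sameCycle hy
    have hinv : κ⁻¹ y = y := by rw [Equiv.Perm.inv_eq_iff_eq, hk]
    refine ⟨?_, ?_⟩
    · rw [hσ', Equiv.Perm.mul_apply, hinv]
    · rw [hτ', Equiv.Perm.mul_apply, hk]
  have h3 : ∀ y, SameCycle π l0 y → (σ'⁻¹ * τ') y = π y := by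
    intro y hy
    rw [Equiv.Perm.mul_apply, Equiv.Perm.inv_eq_iff_eq, (h1 y hy).2,
      (h1 (π y) (Equiv.Perm.sameCycle_apply_right.mpr hy)).1, hτπ]
  have hpow : ∀ i : ℕ, ((σ'⁻¹ * τ') ^ i) l0 = (π ^ i) l0 := by
    intro i
    induction i with
    | zero => rfl
    | succ i ih =>
      rw [pow_succ' (σ'⁻¹ * τ'), pow_succ' π, Equiv.Perm.mul_apply (σ'⁻¹ * τ'),
        Equiv.Perm.mul_apply π, ih]
      exact h3 _ ⟨i, by simp⟩
  have h4 : ∀ y, SameCycle (σ'⁻¹ * τ') l0 y ↔ SameCycle π l0 y := by
    intro y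
    constructor
    · intro h
      obtain ⟨i, _, hi⟩ := h.exists_pow_eq'
      exact ⟨i, by rw [zpow_natCast, ← hpow, hi]⟩
    · intro h
      obtain ⟨i, _, hi⟩ := h.exists_pow_eq'
      exact ⟨i, by rw [zpow_natCast, hpow, hi]⟩
  refine ⟨h1, h2, h4, ?_⟩
  apply Equiv.ext
  intro y
  by_cases hy : SameCycle π l0 y
  · rw [((h4 y).mpr hy).cycleOf_apply, h3 y hy, hκ, hy.cycleOf_apply]
  · rw [Equiv.Perm.cycleOf_apply_of_not_sameCycle (fun h => hy ((h4 y).mp h)), hκ,
      Equiv.Perm.cycleOf_apply_of_not_sameCycle hy]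

theorem parity {L : Type} [Fintype L] [DecidableEq L] (l0 : L) (nx : Perm L)
    (htr : ∀ x y, SameCycle nx x y)
    (alt : L → Bool → L) (ha0 : ∀ l, alt l false ≠ l) (ha1 : ∀ l, alt l true ≠ nx l) :
    ∃ (o : L → Bool) (σ τ : Perm L),
      (∀ l, σ l = (if o l then nx l else l) ∨ σ l = alt l (o l)) ∧
      (∀ l, τ l = (if o l then l else nx l) ∨ τ l = alt l (!o l)) ∧
      (∀ x y, SameCycle (σ⁻¹ * τ) x y) ∧
      ∃ l, σ l ≠ (if o l then nx l else l) ∨ τ l ≠ (if o l then l else nx l) := by
  classical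
  have : Nonempty L := ⟨l0⟩
  let PS : (L → Bool) → Perm L → Prop := fun o σ =>
    ∀ l, σ l = (if o l then nx l else l) ∨ σ l = alt l (o l)
  let PT : (L → Bool) → Perm L → Prop := fun o τ =>
    ∀ l, τ l = (if o l then l else nx l) ∨ τ l = alt l (!o l)
  let one : Perm L → Perm L → Prop := fun σ τ => ∀ y, SameCycle (σ⁻¹ * τ) l0 y
  let S : Finset ((L → Bool) × Perm L × Perm L) :=
    Finset.univ.filter (fun p => p.1 l0 = false ∧ PS p.1 p.2.1 ∧ PT p.1 p.2.2)
  have hPS : ∀ o : L → Bool, ((Finset.univ.filter (fun σ : Perm L => PS o σ)).card : ZMod 2) = 0 := by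
    intro o
    apply even_two_choices (fun l => if o l then nx l else l) (fun l => alt l (o l))
    intro l
    cases hol : o l
    · exact fun h => ha0 l (by simpa [hol] using h.symm)
    · exact fun h => ha1 l (by simpa [hol] using h.symm)
  have hS : (S.card : ZMod 2) = 0 := by
    have : S.card = ∑ o ∈ Finset.univ.filter (fun o : L → Bool => o l0 = false),
        (Finset.univ.filter (fun σ : Perm L => PS o σ)).card *
          (Finset.univ.filter (fun τ : Perm L => PT o τ)).card := by
      have hS' : S = (Finset.univ.filter (fun o : L → Bool => o l0 = false)).biUnion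
          (fun o => ({o} : Finset (L → Bool)) ×ˢ
            ((Finset.univ.filter (fun σ : Perm L => PS o σ)) ×ˢ
              (Finset.univ.filter (fun τ : Perm L => PT o τ)))) := by
        ext ⟨o, σ, τ⟩
        simp only [S, Finset.mem_filter, Finset.mem_univ, true_and, Finset.mem_biUnion,
          Finset.mem_product, Finset.mem_singleton]
        constructor
        · rintro ⟨h1, h2, h3⟩
          exact ⟨o, h1, rfl, h2, h3⟩
        · rintro ⟨o', h1, rfl, h2, h3⟩
          exact ⟨h1, h2, h3⟩
      rw [hS', Finset.card_biUnion]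
      · apply Finset.sum_congr rfl
        intro o _
        rw [Finset.card_product, Finset.card_product, Finset.card_singleton, one_mul]
      · intro o _ o' _ hne
        rw [Function.onFun, Finset.disjoint_left]
        rintro ⟨x, y, z⟩ h1 h2
        rw [Finset.mem_product, Finset.mem_singleton] at h1 h2
        exact hne (h1.1.symm.trans h2.1)
    rw [this, Nat.cast_sum]
    apply Finset.sum_eq_zero
    intro o _
    rw [Nat.cast_mul, hPS o, zero_mul]
  -- the part with at least two cycles
  let S2 : Finset ((L → Bool) × Perm L × Perm L) := S.filter (fun p => ¬ one p.2.1 p.2.2)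
  let S1 : Finset ((L → Bool) × Perm L × Perm L) := S.filter (fun p => one p.2.1 p.2.2)
  let κ : Perm L → Perm L → Perm L := fun σ τ => (σ⁻¹ * τ).cycleOf l0
  let g : (L → Bool) × Perm L × Perm L → (L → Bool) × Perm L × Perm L := fun p =>
    (fun l => if SameCycle (p.2.1⁻¹ * p.2.2) l0 l then p.1 l else !(p.1 l),
      p.2.2 * (κ p.2.1 p.2.2)⁻¹, p.2.1 * κ p.2.1 p.2.2)
  have hS2 : (S2.card : ZMod 2) = 0 := by
    rw [Finset.card_eq_sum_ones, Nat.cast_sum]
    simp only [Nat.cast_one]
    apply Finset.sum_involution (fun p _ => g p)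
    · intro p _
      rfl
    · rintro ⟨o, σ, τ⟩ hp _ heq
      simp only [S2, Finset.mem_filter, one, not_forall] at hp
      obtain ⟨_, y, hy⟩ := hp
      have h1 := congrFun (congrArg Prod.fst heq) y
      simp only [g, hy, if_false] at h1
      cases h : o y <;> simp [h] at h1
    · rintro ⟨o, σ, τ⟩ hp
      obtain ⟨k1, k2, k3, k4⟩ := kap_facts l0 σ τ _ _ _ _ rfl rfl rfl rfl
      simp only [S2, S, Finset.mem_filter, Finset.mem_univ, true_and, one, not_forall] at hp ⊢
      obtain ⟨⟨ho, hs, ht⟩, y, hy⟩ := hp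
      refine ⟨⟨?_, ?_, ?_⟩, y, ?_⟩
      · simp only [g, Equiv.Perm.SameCycle.refl, if_true]
        exact ho
      · intro l
        by_cases hl : SameCycle (σ⁻¹ * τ) l0 l
        · simp only [g, κ, hl, if_true, (k1 l hl).1]
          exact hs l
        · simp only [g, κ, hl, if_false, (k2 l hl).1]
          have := ht l
          cases h : o l <;> simpa [h] using this
      · intro l
        by_cases hl : SameCycle (σ⁻¹ * τ) l0 l
        · simp only [g, κ, hl, if_true, (k1 l hl).2]
          exact ht l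
        · simp only [g, κ, hl, if_false, (k2 l hl).2]
          have := hs l
          cases h : o l <;> simpa [h] using this
      · intro h
        exact hy ((k3 y).mp h)
    · rintro ⟨o, σ, τ⟩ hp
      obtain ⟨k1, k2, k3, k4⟩ := kap_facts l0 σ τ _ _ _ _ rfl rfl rfl rfl
      simp only [g, κ, k3, k4]
      refine Prod.ext ?_ (Prod.ext ?_ ?_)
      · funext l
        by_cases hl : SameCycle (σ⁻¹ * τ) l0 l <;> simp [hl]
      · simp
      · simp
  have hS1 : (S1.card : ZMod 2) = 0 := by
    have := Finset.card_filter_add_card_filter_not (s := S) (fun p => one p.2.1 p.2.2)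
    have h2 : (S1.card : ZMod 2) + (S2.card : ZMod 2) = (S.card : ZMod 2) := by
      rw [← Nat.cast_add]
      exact congrArg Nat.cast this
    rw [hS2, hS, add_zero] at h2
    exact h2
  have hhome : ((fun _ => false, 1, nx) : (L → Bool) × Perm L × Perm L) ∈ S1 := by
    simp only [S1, S, Finset.mem_filter, Finset.mem_univ, true_and, one, PS, PT]
    refine ⟨⟨?_, ?_⟩, ?_⟩
    · intro l; left; simp
    · intro l; left; simp
    · intro y
      simpa using htr l0 y
  have hcard : 1 < S1.card := by
    have hpos : 0 < S1.card := Finset.card_pos.mpr ⟨_, hhome⟩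
    rw [ZMod.natCast_eq_zero_iff] at hS1
    obtain ⟨c, hc⟩ := hS1
    omega
  obtain ⟨⟨o, σ, τ⟩, hp, hne⟩ := Finset.exists_mem_ne hcard (fun _ => false, 1, nx)
  simp only [S1, S, Finset.mem_filter, Finset.mem_univ, true_and, one] at hp
  obtain ⟨⟨ho, hs, ht⟩, h1⟩ := hp
  refine ⟨o, σ, τ, hs, ht, fun x y => (h1 x).symm.trans (h1 y), ?_⟩
  by_contra hcon
  push Not at hcon
  apply hne
  have hnx1 : ∀ l, nx l ≠ l := by
    intro l hl
    have hall : ∀ z, z = l := by
      intro z
      obtain ⟨i, hi⟩ := htr l z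
      rw [← hi]
      exact Equiv.Perm.zpow_apply_eq_self_of_apply_eq_self hl i
    exact ha0 l (hall _)
  have hstep : ∀ l, o l = true → o (nx l) = true := by
    intro l hl
    by_contra hf
    have hf' : o (nx l) = false := by simpa using hf
    have e1 := (hcon l).1
    have e2 := (hcon (nx l)).1
    simp only [hl, if_true] at e1
    simp only [hf', Bool.false_eq_true, if_false] at e2
    exact hnx1 l (σ.injective (e2.trans e1.symm))
  have hall : ∀ l, o l = false := by
    intro l
    by_contra hf
    have hf' : o l = true := by simpa using hf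
    have hpow : ∀ i : ℕ, o ((nx ^ i) l) = true := by
      intro i
      induction i with
      | zero => simpa using hf'
      | succ i ih =>
        rw [pow_succ', Equiv.Perm.mul_apply]
        exact hstep _ ih
    obtain ⟨i, _, hi⟩ := (htr l l0).exists_pow_eq'
    have := hpow i
    rw [hi, ho] at this
    exact absurd this (by simp)
  refine Prod.ext (funext hall) (Prod.ext ?_ ?_)
  · apply Equiv.ext
    intro l
    have := (hcon l).1
    simp only [hall l, Bool.false_eq_true, if_false] at this
    simpa using this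
  · apply Equiv.ext
    intro l
    have := (hcon l).2
    simp only [hall l, Bool.false_eq_true, if_false] at this
    exact this

end Pool.Agent.H10.SF
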