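import Mathlib
import Pool.Agent.H10.SF.C

/-!
The last hub before and the first hub after a vertex of a cyclic permutation.
-/

set_option linter.unusedSectionVars false

namespace Pool.Agent.H10.SF

open Equiv Equiv.Perm

variable {V : Type} [Fintype V] [DecidableEq V]

theorem exists_next (t : Perm V) (ht : ∀ x y, SameCycle t x y) (W : Finset V) (hW : W.Nonempty) :
    ∃ r : V → V, (∀ k, r k ∈ W) ∧ (∀ k ∈ W, r k = k) ∧ (∀ k, k ∉ W → r k = r (t k)) := by
  classical
  obtain ⟨w, hw⟩ := hW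
  have hex : ∀ k, ∃ i : ℕ, (t : V → V)^[i] k ∈ W := by
    intro k
    obtain ⟨i, _, hi⟩ := (ht k w).exists_pow_eq'
    refine ⟨i, ?_⟩
    rw [← Equiv.Perm.coe_pow, hi]
    exact hw
  refine ⟨fun k => (t : V → V)^[Nat.find (hex k)] k, fun k => Nat.find_spec (hex k), ?_, ?_⟩
  · intro k hk
    have h : Nat.find (hex k) = 0 := by
      rw [Nat.find_eq_zero]
      exact hk
    simp only [h, Function.iterate_zero, id]
  · intro k hk
    have h := Nat.find_comp_succ (hex k) (hex (t k)) hk
    simp only [h, Function.iterate_succ_apply]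

theorem forward (s : Perm V) (hs : ∀ x y, SameCycle s x y) (W : Finset V) (hW : W.Nonempty)
    (P : V → Prop) (h0 : ∀ w ∈ W, P w) (h1 : ∀ k, s k ∉ W → P k → P (s k)) : ∀ k, P k := by
  obtain ⟨w, hw⟩ := hW
  have key : ∀ i : ℕ, P ((s ^ i) w) := by
    intro i
    induction i with
    | zero => exact h0 w hw
    | succ i ih =>
      rw [pow_succ', mul_apply]
      by_cases h : s ((s ^ i) w) ∈ W
      · exact h0 _ h
      · exact h1 _ h ih
  intro k
  obtain ⟨i, _, hi⟩ := (hs w k).exists_pow_eq'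
  rw [← hi]
  exact key i

theorem backward (s : Perm V) (hs : ∀ x y, SameCycle s x y) (W : Finset V) (hW : W.Nonempty)
    (P : V → Prop) (h0 : ∀ w ∈ W, P w) (h1 : ∀ k, k ∉ W → P (s k) → P k) : ∀ k, P k := by
  apply forward s⁻¹ (fun x y => (hs x y).inv) W hW P h0
  intro k hk hP
  apply h1 _ hk
  rwa [show s (s⁻¹ k) = k from s.apply_symm_apply k]

/-- The data of the links between hubs. -/
theorem exists_links (s : Perm V) (hs : ∀ x y, SameCycle s x y) (W : Finset V) (hW : W.Nonempty) :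
    ∃ (ell : V → V) (nxt : V → V), (∀ k, ell k ∈ W) ∧ (∀ k, nxt k ∈ W) ∧
      (∀ k ∈ W, ell k = k) ∧ (∀ k, s k ∉ W → ell (s k) = ell k) ∧
      (∀ k, s k ∈ W → nxt (ell k) = s k) ∧ (∀ w ∈ W, ell (s.symm (nxt w)) = w) := by
  obtain ⟨ell, e1, e2, e3⟩ := exists_next s⁻¹ (fun x y => (hs x y).inv) W hW
  obtain ⟨r, r1, r2, r3⟩ := exists_next s hs W hW
  have e4 : ∀ k, s k ∉ W → ell (s k) = ell k := by
    intro k hk
    rw [e3 _ hk, show s⁻¹ (s k) = k from s.symm_apply_apply k]
  refine ⟨ell, fun w => r (s w), e1, fun k => r1 _, e2, e4, ?_, ?_⟩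
  · have key : ∀ k, r (s (ell k)) = r (s k) := by
      apply forward s hs W hW
      · intro w hw
        rw [e2 w hw]
      · intro k hk hP
        rw [e4 k hk, hP, r3 _ hk]
    intro k hk
    show r (s (ell k)) = s k
    rw [key, r2 _ hk]
  · have key : ∀ k, ell (s.symm (r k)) = ell (s.symm k) := by
      apply backward s hs W hW
      · intro w hw
        rw [r2 w hw]
      · intro k hk hP
        rw [r3 _ hk, hP, s.symm_apply_apply, e3 _ hk]
        rfl
    intro w hw
    show ell (s.symm (r (s w))) = w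
    rw [key, s.symm_apply_apply, e2 w hw]

end Pool.Agent.H10.SF
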