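import Mathlib
import Pool.Agent.H10.SF.B1

/-!
The improvement step: another placement of the ends of the links gives a Hamiltonian cycle with more
arcs inside classes.
-/

set_option linter.unusedSectionVars false

namespace Pool.Agent.H10.SF

open Equiv Equiv.Perm

variable {V : Type} [Fintype V] [DecidableEq V]

/-- The successor map of the route given by directions `o`, entry hubs `σ` and exit hubs `τ`. -/
def route (s : Perm V) (W : Finset V) (ell nxt : V → V) (o : V → Bool) (σi τ : V → V) (x : V) : V :=
  if x ∈ W then (if o (σi x) then s.symm (nxt (σi x)) else s (σi x))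
  else (if o (ell x) then (if s.symm x ∈ W then τ (ell x) else s.symm x)
    else (if s x ∈ W then τ (ell x) else s x))

section

variable {s : Perm V} {W : Finset V} {ell nxt : V → V}
  (e1 : ∀ k, ell k ∈ W) (n1 : ∀ k, nxt k ∈ W)
  (e2 : ∀ k ∈ W, ell k = k) (e3 : ∀ k, s k ∉ W → ell (s k) = ell k)
  (e4 : ∀ k, s k ∈ W → nxt (ell k) = s k) (e5 : ∀ w ∈ W, ell (s.symm (nxt w)) = w)
  (hW : ∀ w ∈ W, s w ∉ W)

include n1 hW in
theorem last_not_mem (w : V) : s.symm (nxt w) ∉ W := by
  intro h
  have := hW _ h
  rw [s.apply_symm_apply] at this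
  exact this (n1 w)

variable {o : V → Bool} {σ σi τ τi : V → V}
  (hσ : ∀ w ∈ W, σ w ∈ W) (hτ : ∀ w ∈ W, τ w ∈ W) (hσi : ∀ w ∈ W, σi w ∈ W)
  (hτi : ∀ w ∈ W, τi w ∈ W) (s1 : ∀ w ∈ W, σi (σ w) = w) (s2 : ∀ w ∈ W, σ (σi w) = w)
  (t1 : ∀ w ∈ W, τi (τ w) = w) (t2 : ∀ w ∈ W, τ (τi w) = w)

include n1 e2 e3 e4 e5 hW in
/-- The last vertex of a link goes to its exit hub. -/
theorem route_last (l : V) (hl : l ∈ W) :
    route s W ell nxt o σi τ (if o l then s l else s.symm (nxt l)) = τ l ∧
      ell (if o l then s l else s.symm (nxt l)) = l ∧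
      (if o l then s l else s.symm (nxt l)) ∉ W := by
  by_cases ho : o l = true
  · have h1 : ell (s l) = l := by rw [e3 _ (hW l hl), e2 l hl]
    rw [if_pos ho]
    refine ⟨?_, h1, hW l hl⟩
    unfold route
    rw [if_neg (hW l hl), h1, if_pos ho, s.symm_apply_apply, if_pos hl]
  · have h1 := e5 l hl
    rw [if_neg ho]
    refine ⟨?_, h1, last_not_mem n1 hW l⟩
    unfold route
    rw [if_neg (last_not_mem n1 hW l), h1, if_neg ho, s.apply_symm_apply, if_pos (n1 l)]

include e1 n1 e2 e3 e4 e5 hW hσ hτi s1 t2 in
theorem route_surjective : Function.Surjective (route s W ell nxt o σi τ) := by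
  intro x
  by_cases hx : x ∈ W
  · have h := route_last (o := o) (σi := σi) (τ := τ) n1 e2 e3 e4 e5 hW (τi x) (hτi x hx)
    refine ⟨_, h.1.trans (t2 x hx)⟩
  · have hl := e1 x
    by_cases ho : o (ell x) = true
    · by_cases hsx : s x ∈ W
      · refine ⟨σ (ell x), ?_⟩
        unfold route
        rw [if_pos (hσ _ hl), s1 _ hl, if_pos ho, e4 x hsx, s.symm_apply_apply]
      · refine ⟨s x, ?_⟩
        unfold route
        rw [if_neg hsx, e3 x hsx, if_pos ho, s.symm_apply_apply, if_neg hx]
    · by_cases hsx : s.symm x ∈ W
      · have h1 : ell x = s.symm x := by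
          have := e3 (s.symm x) (by rwa [s.apply_symm_apply])
          rw [s.apply_symm_apply, e2 _ hsx] at this
          exact this
        refine ⟨σ (ell x), ?_⟩
        unfold route
        rw [if_pos (hσ _ hl), s1 _ hl, if_neg ho, h1, s.apply_symm_apply]
      · refine ⟨s.symm x, ?_⟩
        have h1 : ell (s.symm x) = ell x := by
          have := e3 (s.symm x) (by rwa [s.apply_symm_apply])
          rw [s.apply_symm_apply] at this
          exact this.symm
        unfold route
        rw [if_neg hsx, h1, if_neg ho, s.apply_symm_apply, if_neg hx]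


variable (hs : ∀ x y, SameCycle s x y) (hne : W.Nonempty)

include hs hne e1 n1 e2 e3 e4 e5 hW hσ s1 in
/-- Every inner vertex is reached from the entry hub of its link. -/
theorem route_enter (π : Perm V) (hπ : ∀ x, π x = route s W ell nxt o σi τ x) (x : V)
    (hx : x ∉ W) : SameCycle π (σ (ell x)) x := by
  have step : ∀ a b c, SameCycle π a b → π b = c → SameCycle π a c := by
    rintro a b c h rfl
    exact sameCycle_apply_right.mpr h
  have hF : ∀ k, k ∈ W ∨ o (ell k) = true ∨ SameCycle π (σ (ell k)) k := by
    apply forward s hs W hne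
    · intro w hw
      exact Or.inl hw
    · intro k hk hP
      rw [e3 k hk]
      by_cases ho : o (ell k) = true
      · exact Or.inr (Or.inl ho)
      right; right
      by_cases hkW : k ∈ W
      · apply step _ (σ (ell k)) _ (SameCycle.refl _ _)
        rw [hπ]
        unfold route
        rw [if_pos (hσ _ (e1 k)), s1 _ (e1 k), if_neg ho, e2 k hkW]
      · rcases hP with h | h | h
        · exact absurd h hkW
        · exact absurd h ho
        · apply step _ k _ h
          rw [hπ]
          unfold route
          rw [if_neg hkW, if_neg ho, if_neg hk]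
  have hB : ∀ k, k ∈ W ∨ o (ell k) = false ∨ SameCycle π (σ (ell k)) k := by
    apply backward s hs W hne
    · intro w hw
      exact Or.inl hw
    · intro k hk hP
      by_cases ho : o (ell k) = true
      swap
      · exact Or.inr (Or.inl (by simpa using ho))
      right; right
      by_cases hsk : s k ∈ W
      · apply step _ (σ (ell k)) _ (SameCycle.refl _ _)
        rw [hπ]
        unfold route
        rw [if_pos (hσ _ (e1 k)), s1 _ (e1 k), if_pos ho, e4 k hsk, s.symm_apply_apply]
      · rw [e3 k hsk] at hP
        rcases hP with h | h | h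
        · exact absurd h hsk
        · rw [ho] at h
          exact absurd h (by decide)
        · apply step _ (s k) _ h
          rw [hπ]
          unfold route
          rw [if_neg hsk, e3 k hsk, if_pos ho, s.symm_apply_apply, if_neg hk]
  rcases hF x with h | h | h
  · exact absurd h hx
  · rcases hB x with h' | h' | h'
    · exact absurd h' hx
    · rw [h] at h'
      exact absurd h' (by decide)
    · exact h'
  · exact h

include hs hne e1 n1 e2 e3 e4 e5 hW hσ s1 in
theorem route_link (π : Perm V) (hπ : ∀ x, π x = route s W ell nxt o σi τ x) (l : V)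
    (hl : l ∈ W) : SameCycle π (σ l) (τ l) := by
  obtain ⟨h1, h2, h3⟩ := route_last (o := o) (σi := σi) (τ := τ) n1 e2 e3 e4 e5 hW l hl
  have h4 := route_enter e1 n1 e2 e3 e4 e5 hW hσ s1 hs hne π hπ _ h3
  rw [h2] at h4
  rw [← hπ] at h1
  rw [← h1]
  exact sameCycle_apply_right.mpr h4

include hs hne e1 n1 e2 e3 e4 e5 hW hσ s1 hσi s2 in
/-- The route is one cycle if the hubs are. -/
theorem route_transitive (π : Perm V) (hπ : ∀ x, π x = route s W ell nxt o σi τ x)
    (ρ : Perm W) (hρ : ∀ l : W, σ (ρ l) = τ l) (htr : ∀ a b, SameCycle ρ a b) (x y : V) :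
    SameCycle π x y := by
  have h1 : ∀ (l : W) (i : ℕ), SameCycle π (σ l) (σ ((ρ ^ i) l : W)) := by
    intro l i
    induction i with
    | zero => exact SameCycle.refl _ _
    | succ i ih =>
      apply ih.trans
      rw [pow_succ', mul_apply, hρ]
      exact route_link e1 n1 e2 e3 e4 e5 hW hσ s1 hs hne π hπ _ ((ρ ^ i) l).2
  have h2 : ∀ l m : W, SameCycle π (σ l) (σ m) := by
    intro l m
    obtain ⟨i, _, hi⟩ := (htr l m).exists_pow_eq'
    rw [← hi]
    exact h1 l i
  have h3 : ∀ z, ∃ l : W, SameCycle π (σ l) z := by
    intro z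
    by_cases hz : z ∈ W
    · refine ⟨⟨σi z, hσi z hz⟩, ?_⟩
      show SameCycle π (σ (σi z)) z
      rw [s2 z hz]
    · exact ⟨⟨ell z, e1 z⟩, route_enter e1 n1 e2 e3 e4 e5 hW hσ s1 hs hne π hπ z hz⟩
  obtain ⟨l, hl⟩ := h3 x
  obtain ⟨m, hm⟩ := h3 y
  exact hl.symm.trans ((h2 l m).trans hm)

variable {ι : Type} (cl : V → ι)
  (hσa : ∀ l ∈ W, σ l = (if o l then nxt l else l) ∨
    cl (σ l) = cl (if o l then s.symm (nxt l) else s l))
  (hτa : ∀ l ∈ W, τ l = (if o l then l else nxt l) ∨
    cl (τ l) = cl (if o l then s l else s.symm (nxt l)))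

include e1 e2 e3 e4 s2 hσi hσa hτa in
/-- Every arc of the route is an old edge or lies in a class. -/
theorem route_arc (x : V) : route s W ell nxt o σi τ x = s x ∨
    s (route s W ell nxt o σi τ x) = x ∨ cl (route s W ell nxt o σi τ x) = cl x := by
  by_cases hx : x ∈ W
  · have h := hσa (σi x) (hσi x hx)
    rw [s2 x hx] at h
    unfold route
    rw [if_pos hx]
    by_cases ho : o (σi x) = true
    · rw [if_pos ho] at h ⊢
      rw [if_pos ho] at h
      rcases h with h | h
      · right; left
        rw [s.apply_symm_apply, ← h]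
      · right; right
        exact h.symm
    · rw [if_neg ho] at h ⊢
      rw [if_neg ho] at h
      rcases h with h | h
      · left
        rw [← h]
      · right; right
        exact h.symm
  · have h := hτa (ell x) (e1 x)
    unfold route
    rw [if_neg hx]
    by_cases ho : o (ell x) = true
    · rw [if_pos ho] at h ⊢
      rw [if_pos ho] at h
      by_cases hsx : s.symm x ∈ W
      · rw [if_pos hsx]
        have h1 : ell x = s.symm x := by
          have := e3 (s.symm x) (by rwa [s.apply_symm_apply])
          rw [s.apply_symm_apply, e2 _ hsx] at this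
          exact this
        rcases h with h | h
        · right; left
          rw [h, h1, s.apply_symm_apply]
        · right; right
          rw [h, h1, s.apply_symm_apply]
      · rw [if_neg hsx]
        right; left
        exact s.apply_symm_apply x
    · rw [if_neg ho] at h ⊢
      rw [if_neg ho] at h
      by_cases hsx : s x ∈ W
      · rw [if_pos hsx]
        rw [e4 x hsx, s.symm_apply_apply] at h
        rcases h with h | h
        · left
          exact h
        · right; right
          exact h
      · rw [if_neg hsx]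
        left
        rfl

include e1 n1 e2 e3 e4 e5 hW hσ s1 in
/-- A moved end gives a new arc inside a class. -/
theorem route_count (π : Perm V) (hπ : ∀ x, π x = route s W ell nxt o σi τ x)
    [DecidableEq ι] (hcross : ∀ w ∈ W, cl (s w) ≠ cl w ∧ cl (s.symm w) ≠ cl w)
    (l : V) (hl : l ∈ W) (hmov : cl (σ l) = cl (if o l then s.symm (nxt l) else s l) ∨
      cl (τ l) = cl (if o l then s l else s.symm (nxt l))) (hτW : τ l ∈ W) :
    (Finset.univ.filter (fun x => cl x = cl (s x))).card <
      (Finset.univ.filter (fun x => cl x = cl (π x))).card := by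
  obtain ⟨z, hz, hzW⟩ : ∃ z, cl z = cl (π z) ∧ (z ∈ W ∨ π z ∈ W) := by
    rcases hmov with h | h
    · refine ⟨σ l, ?_, Or.inl (hσ l hl)⟩
      rw [hπ]
      unfold route
      rw [if_pos (hσ l hl), s1 l hl]
      exact h
    · obtain ⟨h1, h2, h3⟩ := route_last (o := o) (σi := σi) (τ := τ) n1 e2 e3 e4 e5 hW l hl
      refine ⟨if o l then s l else s.symm (nxt l), ?_, Or.inr ?_⟩
      · rw [hπ, h1, h]
      · rw [hπ, h1]
        exact hτW
  have hin : ∀ x, cl x = cl (s x) → x ∉ W ∧ s x ∉ W := by
    intro x hx
    refine ⟨fun h => (hcross x h).1 hx.symm, fun h => ?_⟩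
    have := (hcross _ h).2
    rw [s.symm_apply_apply] at this
    exact this hx
  let f : V → V := fun x => if o (ell x) then s x else x
  have hf : ∀ x, cl x = cl (s x) → cl (f x) = cl (π (f x)) ∧ f x ∉ W ∧ π (f x) ∉ W := by
    intro x hx
    obtain ⟨h1, h2⟩ := hin x hx
    by_cases ho : o (ell x) = true
    · have hfx : f x = s x := if_pos ho
      have hp : π (s x) = x := by
        rw [hπ]
        unfold route
        rw [if_neg h2, e3 x h2, if_pos ho, s.symm_apply_apply, if_neg h1]
      rw [hfx, hp]
      exact ⟨hx.symm, h2, h1⟩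
    · have hfx : f x = x := if_neg ho
      have hp : π x = s x := by
        rw [hπ]
        unfold route
        rw [if_neg h1, if_neg ho, if_neg h2]
      rw [hfx, hp]
      exact ⟨hx, h1, h2⟩
  have hcard : (Finset.univ.filter (fun x => cl x = cl (s x))).card ≤
      ((Finset.univ.filter (fun x => cl x = cl (π x))).erase z).card := by
    apply Finset.card_le_card_of_injOn f
    · intro x hx
      have hx' : cl x = cl (s x) := (Finset.mem_filter.mp hx).2
      obtain ⟨h1, h2, h3⟩ := hf x hx'
      rw [Finset.mem_coe, Finset.mem_erase, Finset.mem_filter]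
      refine ⟨?_, Finset.mem_univ _, h1⟩
      intro h
      rw [h] at h2 h3
      rcases hzW with h' | h'
      · exact h2 h'
      · exact h3 h'
    · intro x hx y hy hxy
      have hx' : cl x = cl (s x) := (Finset.mem_filter.mp hx).2
      have hy' : cl y = cl (s y) := (Finset.mem_filter.mp hy).2
      obtain ⟨h1, h2⟩ := hin x hx'
      obtain ⟨h3, h4⟩ := hin y hy'
      by_cases hox : o (ell x) = true
      · have hfx : f x = s x := if_pos hox
        by_cases hoy : o (ell y) = true
        · have hfy : f y = s y := if_pos hoy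
          rw [hfx, hfy] at hxy
          exact s.injective hxy
        · have hfy : f y = y := if_neg hoy
          rw [hfx, hfy] at hxy
          exfalso
          apply hoy
          rw [← hxy, e3 x h2, hox]
      · have hfx : f x = x := if_neg hox
        by_cases hoy : o (ell y) = true
        · have hfy : f y = s y := if_pos hoy
          rw [hfx, hfy] at hxy
          exfalso
          apply hox
          rw [hxy, e3 y h4, hoy]
        · have hfy : f y = y := if_neg hoy
          rw [hfx, hfy] at hxy
          exact hxy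
  have hzm : z ∈ Finset.univ.filter (fun x => cl x = cl (π x)) :=
    Finset.mem_filter.mpr ⟨Finset.mem_univ _, hz⟩
  have := Finset.card_erase_lt_of_mem hzm
  omega

end

end Pool.Agent.H10.SF
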