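import Mathlib
import Pool.Agent.H10.SF.B
import Pool.Agent.H10.SF.A

/-!
The improvement step.
-/

set_option linter.unusedSectionVars false

namespace Pool.Agent.H10.SF

open Equiv Equiv.Perm

theorem improve {V ι : Type} [Fintype V] [DecidableEq V] [DecidableEq ι] (cl : V → ι)
    (s : Perm V) (hs : ∀ x y, SameCycle s x y)
    (W : Finset V) (hW2 : W.Nonempty) (hW : ∀ w ∈ W, s w ∉ W)
    (hcross : ∀ w ∈ W, cl (s w) ≠ cl w ∧ cl (s.symm w) ≠ cl w)
    (hub : ∀ x, ∃ w ∈ W, cl w = cl x) :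
    ∃ π : Perm V, (∀ x y, SameCycle π x y) ∧
      (∀ x, π x = s x ∨ s (π x) = x ∨ cl (π x) = cl x) ∧
      (Finset.univ.filter (fun x => cl x = cl (s x))).card <
        (Finset.univ.filter (fun x => cl x = cl (π x))).card := by
  classical
  obtain ⟨ell, nxt, e1, n1, e2, e3, e4, e5⟩ := exists_links s hs W hW2
  choose hb hbW hbc using hub
  obtain ⟨w0, hw0⟩ := id hW2
  let nxL : W → W := fun l => ⟨nxt l, n1 l⟩
  have hinj : Function.Injective nxL := by
    intro a b hab
    have h : nxt a = nxt b := congrArg Subtype.val hab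
    apply Subtype.ext
    rw [← e5 a a.2, ← e5 b b.2, h]
  let nxP : Perm W := Equiv.ofBijective nxL (Finite.injective_iff_bijective.mp hinj)
  have hnxP : ∀ l : W, (nxP l : V) = nxt l := fun l => rfl
  have htr : ∀ x y, SameCycle nxP x y := by
    intro x y
    have key : ∀ i : ℕ, SameCycle nxP x ⟨ell ((s ^ i) (x : V)), e1 _⟩ := by
      intro i
      induction i with
      | zero =>
        have h : (⟨ell ((s ^ 0) (x : V)), e1 _⟩ : W) = x := Subtype.ext (e2 x x.2)
        rw [h]
      | succ i ih =>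
        by_cases hi : s ((s ^ i) (x : V)) ∈ W
        · have h : (⟨ell ((s ^ (i + 1)) (x : V)), e1 _⟩ : W) =
              nxP ⟨ell ((s ^ i) (x : V)), e1 _⟩ := by
            apply Subtype.ext
            rw [hnxP]
            show ell ((s ^ (i + 1)) (x : V)) = nxt (ell ((s ^ i) (x : V)))
            rw [pow_succ', mul_apply, e2 _ hi, e4 _ hi]
          rw [h]
          exact sameCycle_apply_right.mpr ih
        · have h : (⟨ell ((s ^ (i + 1)) (x : V)), e1 _⟩ : W) =
              ⟨ell ((s ^ i) (x : V)), e1 _⟩ := by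
            apply Subtype.ext
            show ell ((s ^ (i + 1)) (x : V)) = ell ((s ^ i) (x : V))
            rw [pow_succ', mul_apply, e3 _ hi]
          rw [h]
          exact ih
    obtain ⟨i, _, hi⟩ := (hs x y).exists_pow_eq'
    have h := key i
    have h2 : (⟨ell ((s ^ i) (x : V)), e1 _⟩ : W) = y := by
      apply Subtype.ext
      show ell ((s ^ i) (x : V)) = y
      rw [hi, e2 y y.2]
    rwa [h2] at h
  let alt : W → Bool → W := fun l b =>
    if b then ⟨hb (s.symm (nxt l)), hbW _⟩ else ⟨hb (s l), hbW _⟩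
  have ha0 : ∀ l, alt l false ≠ l := by
    intro l h
    have h1 : hb (s l) = l := congrArg Subtype.val h
    have h2 := hbc (s l)
    rw [h1] at h2
    exact (hcross l l.2).1 h2.symm
  have ha1 : ∀ l, alt l true ≠ nxP l := by
    intro l h
    have h1 : hb (s.symm (nxt l)) = nxt l := congrArg Subtype.val h
    have h2 := hbc (s.symm (nxt l))
    rw [h1] at h2
    exact (hcross _ (n1 l)).2 h2.symm
  obtain ⟨o, σ, τ, h1, h2, h3, l0, hl0⟩ := parity ⟨w0, hw0⟩ nxP htr alt ha0 ha1
  let o' : V → Bool := fun v => if h : v ∈ W then o ⟨v, h⟩ else false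
  let σ' : V → V := fun v => if h : v ∈ W then σ ⟨v, h⟩ else v
  let σi : V → V := fun v => if h : v ∈ W then σ.symm ⟨v, h⟩ else v
  let τ' : V → V := fun v => if h : v ∈ W then τ ⟨v, h⟩ else v
  let τi : V → V := fun v => if h : v ∈ W then τ.symm ⟨v, h⟩ else v
  have o'e : ∀ l : W, o' l = o l := fun l => by simp only [o', dif_pos l.2]
  have σ'e : ∀ l : W, σ' l = σ l := fun l => by simp only [σ', dif_pos l.2]
  have σie : ∀ l : W, σi l = σ.symm l := fun l => by simp only [σi, dif_pos l.2]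
  have τ'e : ∀ l : W, τ' l = τ l := fun l => by simp only [τ', dif_pos l.2]
  have τie : ∀ l : W, τi l = τ.symm l := fun l => by simp only [τi, dif_pos l.2]
  have hσ : ∀ w ∈ W, σ' w ∈ W := fun w hw => by rw [σ'e ⟨w, hw⟩]; exact (σ ⟨w, hw⟩).2
  have hτ : ∀ w ∈ W, τ' w ∈ W := fun w hw => by rw [τ'e ⟨w, hw⟩]; exact (τ ⟨w, hw⟩).2
  have hσi : ∀ w ∈ W, σi w ∈ W := fun w hw => by
    rw [σie ⟨w, hw⟩]; exact (σ.symm ⟨w, hw⟩).2
  have hτi : ∀ w ∈ W, τi w ∈ W := fun w hw => by
    rw [τie ⟨w, hw⟩]; exact (τ.symm ⟨w, hw⟩).2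
  have s1 : ∀ w ∈ W, σi (σ' w) = w := fun w hw => by
    rw [σ'e ⟨w, hw⟩, σie, σ.symm_apply_apply]
  have s2 : ∀ w ∈ W, σ' (σi w) = w := fun w hw => by
    rw [σie ⟨w, hw⟩, σ'e, σ.apply_symm_apply]
  have t2 : ∀ w ∈ W, τ' (τi w) = w := fun w hw => by
    rw [τie ⟨w, hw⟩, τ'e, τ.apply_symm_apply]
  have hσa : ∀ l ∈ W, σ' l = (if o' l then nxt l else l) ∨
      cl (σ' l) = cl (if o' l then s.symm (nxt l) else s l) := by
    intro l hl
    rw [σ'e ⟨l, hl⟩, o'e ⟨l, hl⟩]
    rcases h1 ⟨l, hl⟩ with h | h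
    · left
      rw [h]
      split_ifs <;> rfl
    · right
      rw [h]
      by_cases ho : o ⟨l, hl⟩ = true
      · rw [ho, if_pos rfl]
        exact hbc _
      · rw [Bool.not_eq_true] at ho
        rw [ho]
        exact hbc _
  have hτa : ∀ l ∈ W, τ' l = (if o' l then l else nxt l) ∨
      cl (τ' l) = cl (if o' l then s l else s.symm (nxt l)) := by
    intro l hl
    rw [τ'e ⟨l, hl⟩, o'e ⟨l, hl⟩]
    rcases h2 ⟨l, hl⟩ with h | h
    · left
      rw [h]
      split_ifs <;> rfl
    · right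
      rw [h]
      by_cases ho : o ⟨l, hl⟩ = true
      · rw [ho, if_pos rfl]
        exact hbc _
      · rw [Bool.not_eq_true] at ho
        rw [ho]
        exact hbc _
  have hmov : cl (σ' l0) = cl (if o' l0 then s.symm (nxt l0) else s l0) ∨
      cl (τ' l0) = cl (if o' l0 then s l0 else s.symm (nxt l0)) := by
    rcases hl0 with h | h
    · left
      rcases hσa l0 l0.2 with h' | h'
      · exfalso
        apply h
        apply Subtype.ext
        rw [← σ'e, h', o'e]
        split_ifs <;> rfl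
      · exact h'
    · right
      rcases hτa l0 l0.2 with h' | h'
      · exfalso
        apply h
        apply Subtype.ext
        rw [← τ'e, h', o'e]
        split_ifs <;> rfl
      · exact h'
  have hsurj : Function.Surjective (route s W ell nxt o' σi τ') :=
    route_surjective e1 n1 e2 e3 e4 e5 hW hσ hτi s1 t2
  let π : Perm V := Equiv.ofBijective _ (Finite.surjective_iff_bijective.mp hsurj)
  have hπ : ∀ x, π x = route s W ell nxt o' σi τ' x := fun x => rfl
  refine ⟨π, ?_, ?_, ?_⟩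
  · apply route_transitive e1 n1 e2 e3 e4 e5 hW hσ hσi s1 s2 hs hW2 π hπ (σ⁻¹ * τ) _ h3
    intro l
    rw [σ'e, τ'e, mul_apply]
    congr 1
    exact σ.apply_symm_apply _
  · intro x
    rw [hπ]
    exact route_arc e1 e2 e3 e4 hσi s2 cl hσa hτa x
  · exact route_count e1 n1 e2 e3 e4 e5 hW hσ s1 cl π hπ hcross l0 l0.2 hmov (hτ _ l0.2)

end Pool.Agent.H10.SF
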