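import Mathlib

set_option linter.unusedSectionVars false

namespace Pool.Agent.H10.SF

/-! MODULE D (independent transversal on a cycle). -/

/-- Fibres of halving have at most two elements. -/
theorem half_fibre {n : ℕ} (S : Finset (Fin n)) (e b : ℕ) :
    (S.filter (fun x => (x.val + e) / 2 = b)).card ≤ 2 := by
  have h : (S.filter (fun x => (x.val + e) / 2 = b)).image (fun x => x.val + e) ⊆
      {2 * b, 2 * b + 1} := by
    intro k hk
    simp only [Finset.mem_image, Finset.mem_filter] at hk
    obtain ⟨x, ⟨_, hx⟩, rfl⟩ := hk
    simp only [Finset.mem_insert, Finset.mem_singleton]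
    omega
  have hinj : ((S.filter (fun x => (x.val + e) / 2 = b)).image (fun x => x.val + e)).card =
      (S.filter (fun x => (x.val + e) / 2 = b)).card := by
    apply Finset.card_image_of_injective
    intro x y hxy
    apply Fin.ext
    have : x.val + e = y.val + e := hxy
    omega
  rw [← hinj]
  exact (Finset.card_le_card h).trans (Finset.card_le_two)

theorem card_le_two_mul_image {n : ℕ} (S : Finset (Fin n)) (e : ℕ) :
    S.card ≤ 2 * (S.image (fun x => (x.val + e) / 2)).card := by
  apply Finset.card_le_mul_card_image
  intro b _
  exact half_fibre S e b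

theorem transversal {n : ℕ} [NeZero n] {ι : Type} [DecidableEq ι] (cl : Fin n → ι)
    (Fr : Finset (Fin n)) (h5 : ∀ x, 5 ≤ (Fr.filter (fun y => cl y = cl x)).card) :
    ∃ W : Finset (Fin n), W ⊆ Fr ∧ (∀ w ∈ W, w + 1 ∉ W) ∧ ∀ x, ∃ w ∈ W, cl w = cl x := by
  classical
  let C := {c : ι // c ∈ Finset.univ.image cl}
  let _ : Fintype C := inferInstanceAs (Fintype {c : ι // c ∈ Finset.univ.image cl})
  let F' : Finset (Fin n) := Fr.filter (fun x => x.val + 1 < n)
  let A : C → Finset (Fin n) := fun c => F'.filter (fun x => cl x = c.1)
  -- lower bound for the number of free vertices in a set of classes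
  have hlow : ∀ s : Finset C, 5 * s.card ≤ (s.biUnion A).card + 1 := by
    intro s
    let A0 : C → Finset (Fin n) := fun c => Fr.filter (fun x => cl x = c.1)
    have h0 : (s.biUnion A0).card = ∑ c ∈ s, (A0 c).card := by
      apply Finset.card_biUnion
      intro a _ b _ hab
      rw [Function.onFun, Finset.disjoint_left]
      intro x hx hx'
      simp only [A0, Finset.mem_filter] at hx hx'
      apply hab
      apply Subtype.ext
      rw [← hx.2, hx'.2]
    have h1 : 5 * s.card ≤ (s.biUnion A0).card := by
      rw [h0, mul_comm]
      have : ∀ c ∈ s, 5 ≤ (A0 c).card := by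
        intro c _
        obtain ⟨x, _, hx⟩ := Finset.mem_image.mp c.2
        have := h5 x
        rw [hx] at this
        exact this
      have h2 := Finset.card_nsmul_le_sum s (fun c => (A0 c).card) 5 this
      simpa using h2
    have h2 : s.biUnion A0 ⊆ (s.biUnion A) ∪ (Finset.univ.filter (fun x : Fin n => ¬ x.val + 1 < n)) := by
      intro x hx
      simp only [Finset.mem_biUnion, Finset.mem_filter, A0] at hx
      obtain ⟨c, hc, hxF, hxc⟩ := hx
      simp only [Finset.mem_union, Finset.mem_biUnion, Finset.mem_filter, A, F', Finset.mem_univ,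
        true_and]
      by_cases h : x.val + 1 < n
      · left
        exact ⟨c, hc, ⟨hxF, h⟩, hxc⟩
      · right
        exact h
    have h3 : (Finset.univ.filter (fun x : Fin n => ¬ x.val + 1 < n)).card ≤ 1 := by
      rw [Finset.card_le_one]
      intro a ha b hb
      simp only [Finset.mem_filter, Finset.mem_univ, true_and] at ha hb
      apply Fin.ext
      have := a.2
      have := b.2
      omega
    have h4 := Finset.card_le_card h2
    have h5' := Finset.card_union_le (s.biUnion A)
      (Finset.univ.filter (fun x : Fin n => ¬ x.val + 1 < n))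
    omega
  -- first matching: two vertices in each class, all in different blocks
  let t : C × Bool → Finset ℕ := fun p => (A p.1).image (fun x => (x.val + 0) / 2)
  have hall1 : ∀ s : Finset (C × Bool), s.card ≤ (s.biUnion t).card := by
    intro s
    by_cases hs : s = ∅
    · simp [hs]
    have hm : 1 ≤ (s.image Prod.fst).card := by
      rw [Nat.succ_le_iff, Finset.card_pos]
      exact (Finset.nonempty_iff_ne_empty.mpr hs).image _
    have h1 : s.card ≤ 2 * (s.image Prod.fst).card := by
      apply Finset.card_le_mul_card_image
      intro c _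
      have : (s.filter (fun p => p.1 = c)) ⊆ {(c, false), (c, true)} := by
        intro p hp
        simp only [Finset.mem_filter] at hp
        obtain ⟨c', b⟩ := p
        have : c' = c := hp.2
        subst this
        cases b <;> simp
      exact (Finset.card_le_card this).trans Finset.card_le_two
    have h2 : ((s.image Prod.fst).biUnion A).image (fun x => (x.val + 0) / 2) ⊆ s.biUnion t := by
      intro k hk
      simp only [Finset.mem_image, Finset.mem_biUnion] at hk
      obtain ⟨x, ⟨c, ⟨p, hp, rfl⟩, hx⟩, rfl⟩ := hk
      simp only [Finset.mem_biUnion, t, Finset.mem_image]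
      exact ⟨p, hp, x, hx, rfl⟩
    have h3 := Finset.card_le_card h2
    have h4 := card_le_two_mul_image ((s.image Prod.fst).biUnion A) 0
    have h5' := hlow (s.image Prod.fst)
    omega
  obtain ⟨f, hf, hft⟩ := (Finset.all_card_le_biUnion_card_iff_exists_injective t).mp hall1
  have hv : ∀ p : C × Bool, ∃ x ∈ A p.1, (x.val + 0) / 2 = f p := by
    intro p
    have := hft p
    simp only [t, Finset.mem_image] at this
    exact this
  choose v hvA hvf using hv
  -- second matching: one vertex in each class, all in different slots
  let u : C → Finset ℕ := fun c =>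
    ((Finset.univ : Finset Bool).image (fun b => v (c, b))).image (fun x => (x.val + 1) / 2)
  have hvinj : Function.Injective v := by
    intro p q hpq
    apply hf
    rw [← hvf p, ← hvf q, hpq]
  have hall2 : ∀ s : Finset C, s.card ≤ (s.biUnion u).card := by
    intro s
    let B : Finset (Fin n) := (s ×ˢ (Finset.univ : Finset Bool)).image v
    have hB : B.card = 2 * s.card := by
      rw [Finset.card_image_of_injective _ hvinj, Finset.card_product]
      simp [mul_comm]
    have h2 : B.image (fun x => (x.val + 1) / 2) ⊆ s.biUnion u := by
      intro k hk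
      simp only [Finset.mem_image, B, Finset.mem_product, Finset.mem_univ, and_true] at hk
      obtain ⟨x, ⟨⟨c, b⟩, hp, rfl⟩, rfl⟩ := hk
      simp only [Finset.mem_biUnion, u, Finset.mem_image, Finset.mem_univ, true_and]
      exact ⟨c, hp, v (c, b), ⟨b, rfl⟩, rfl⟩
    have h3 := Finset.card_le_card h2
    have h4 := card_le_two_mul_image B 1
    omega
  obtain ⟨g, hg, hgu⟩ := (Finset.all_card_le_biUnion_card_iff_exists_injective u).mp hall2
  have hw : ∀ c : C, ∃ b : Bool, ((v (c, b)).val + 1) / 2 = g c := by
    intro c
    have := hgu c
    simp only [u, Finset.mem_image, Finset.mem_univ, true_and] at this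
    obtain ⟨x, ⟨b, rfl⟩, hx⟩ := this
    exact ⟨b, hx⟩
  choose β hβ using hw
  refine ⟨Finset.univ.image (fun c : C => v (c, β c)), ?_, ?_, ?_⟩
  · intro x hx
    simp only [Finset.mem_image, Finset.mem_univ, true_and] at hx
    obtain ⟨c, rfl⟩ := hx
    have := hvA (c, β c)
    simp only [A, F', Finset.mem_filter] at this
    exact this.1.1
  · intro w hw hw1
    simp only [Finset.mem_image, Finset.mem_univ, true_and] at hw hw1
    obtain ⟨c, hc⟩ := hw
    obtain ⟨d, hd⟩ := hw1
    have hcA := hvA (c, β c)
    simp only [A, F', Finset.mem_filter] at hcA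
    have hlt : w.val + 1 < n := by
      have := hcA.1.2
      rw [hc] at this
      exact this
    have hval : (w + 1).val = w.val + 1 := by
      rw [Fin.val_add_one_of_lt']
      exact hlt
    have hcd : c = d := by
      rcases Nat.even_or_odd w.val with he | ho
      · have h1 := hvf (c, β c)
        have h2 := hvf (d, β d)
        have h1' : (w.val + 0) / 2 = f (c, β c) := by rw [← h1, hc]
        have h2' : (w.val + 1 + 0) / 2 = f (d, β d) := by rw [← h2, hd, hval]
        obtain ⟨k, hk⟩ := he
        have : f (c, β c) = f (d, β d) := by omega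
        have := hf this
        exact (Prod.mk.inj this).1
      · have h1 := hβ c
        have h2 := hβ d
        have h1' : (w.val + 1) / 2 = g c := by rw [← h1, hc]
        have h2' : (w.val + 1 + 1) / 2 = g d := by rw [← h2, hd, hval]
        obtain ⟨k, hk⟩ := ho
        have : g c = g d := by omega
        exact hg this
    subst hcd
    have : w = w + 1 := by rw [← hd, ← hc]
    have := congrArg Fin.val this
    rw [hval] at this
    omega
  · intro x
    refine ⟨v (⟨cl x, Finset.mem_image_of_mem _ (Finset.mem_univ x)⟩,
      β ⟨cl x, Finset.mem_image_of_mem _ (Finset.mem_univ x)⟩), ?_, ?_⟩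
    · simp only [Finset.mem_image, Finset.mem_univ, true_and]
      exact ⟨⟨cl x, Finset.mem_image_of_mem _ (Finset.mem_univ x)⟩, rfl⟩
    · have := hvA (⟨cl x, Finset.mem_image_of_mem _ (Finset.mem_univ x)⟩,
        β ⟨cl x, Finset.mem_image_of_mem _ (Finset.mem_univ x)⟩)
      simp only [A, F', Finset.mem_filter] at this
      exact this.2

end Pool.Agent.H10.SF
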