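import Mathlib
import Pool.Agent.H10.SF.B2
import Pool.Agent.H10.SF.D

/-!
A Hamiltonian graph whose vertices can be partitioned into cliques with at least 11 vertices has a
2-factor with exactly two cycles.
-/

set_option linter.unusedSectionVars false

namespace Pool.Agent.H10.SF

open Equiv Equiv.Perm

/-- A transitive permutation of `Fin n` is the rotation in suitable labels. -/
theorem exists_label {n : ℕ} [NeZero n] (s : Perm (Fin n)) (hs : ∀ x y, SameCycle s x y)
    (hV : 3 ≤ Fintype.card (Fin n)) :
    ∃ u : Fin n ≃ Fin n, ∀ k, s (u k) = u (k + 1) := by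
  have hn : 0 < n := Nat.pos_of_ne_zero (NeZero.ne n)
  let f : Fin n → Fin n := fun k => (s ^ k.val) 0
  have hsurj : Function.Surjective f := by
    intro y
    obtain ⟨i, hi, hy⟩ := (hs 0 y).exists_pow_eq_of_mem_support
      (mem_support.mpr (no_fix s hs hV 0))
    have h1 : (s.cycleOf 0).support.card ≤ n := by
      have := Finset.card_le_univ (s.cycleOf 0).support
      rwa [Fintype.card_fin] at this
    exact ⟨⟨i, lt_of_lt_of_le hi h1⟩, hy⟩
  have hbij : Function.Bijective f := Finite.surjective_iff_bijective.mp hsurj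
  have hstep : ∀ k : Fin n, k.val + 1 < n → s (f k) = f (k + 1) := by
    intro k hk
    have h1 : (k + 1).val = k.val + 1 := Fin.val_add_one_of_lt' hk
    show s ((s ^ k.val) 0) = (s ^ (k + 1).val) 0
    rw [h1, pow_succ', mul_apply]
  refine ⟨Equiv.ofBijective f hbij, ?_⟩
  intro k
  show s (f k) = f (k + 1)
  by_cases hk : k.val + 1 < n
  · exact hstep k hk
  · have hk1 : k.val + 1 = n := by have := k.isLt; omega
    have h0 : k + 1 = 0 := by
      apply Fin.ext
      rw [Fin.val_add, Fin.val_zero]
      rcases Nat.lt_or_ge 1 n with h | h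
      · have h2 : ((1 : Fin n)).val = 1 := by
          rw [Fin.val_one', Nat.mod_eq_of_lt h]
        rw [h2, hk1, Nat.mod_self]
      · have h3 : n = 1 := by omega
        subst h3
        exact Nat.mod_one _
    rw [h0]
    obtain ⟨j, hj⟩ := hsurj (s (f k))
    by_cases hj0 : j.val = 0
    · have : j = 0 := Fin.ext hj0
      rw [← hj, this]
    · exfalso
      have hjlt := j.isLt
      let m : Fin n := ⟨j.val - 1, by omega⟩
      have h1 := hstep m (show (j.val - 1) + 1 < n by omega)
      have h2 : m + 1 = j := by
        apply Fin.ext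
        rw [Fin.val_add_one_of_lt' (show m.val + 1 < n from (by show (j.val - 1) + 1 < n; omega))]
        show (j.val - 1) + 1 = j.val
        omega
      rw [h2, hj] at h1
      have h4 := hbij.1 (s.injective h1)
      have h5 : m.val = k.val := congrArg Fin.val h4
      have h6 : m.val = j.val - 1 := rfl
      omega

theorem two_of_partition {n : ℕ} [NeZero n] (G : SimpleGraph (Fin n)) (hG : G.IsHamiltonian)
    {ι : Type} (cl : Fin n → ι) (hcl : ∀ x y, x ≠ y → cl x = cl y → G.Adj x y)
    (h11 : ∀ x, 11 ≤ ({y | cl y = cl x} : Set (Fin n)).ncard) :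
    ∃ F : SimpleGraph (Fin n), F ≤ G ∧ (∀ x, (F.neighborSet x).ncard = 2) ∧
      Nat.card F.ConnectedComponent = 2 := by
  classical
  have hn11 : 11 ≤ n := by
    have h1 := h11 0
    have h2 : ({y | cl y = cl 0} : Set (Fin n)).ncard ≤ (Set.univ : Set (Fin n)).ncard :=
      Set.ncard_le_ncard (Set.subset_univ _) (Set.finite_univ)
    rw [Set.ncard_univ, Nat.card_eq_fintype_card, Fintype.card_fin] at h2
    omega
  have hV : 3 ≤ Fintype.card (Fin n) := by rw [Fintype.card_fin]; omega
  obtain ⟨v, hv⟩ := Pool.Agent.H47.TCF.exists_cyclic (by omega) G hG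
  let Hs : Finset (Perm (Fin n)) := Finset.univ.filter
    (fun s => (∀ x y, SameCycle s x y) ∧ ∀ x, G.Adj x (s x))
  have hne : Hs.Nonempty := by
    let s0 : Perm (Fin n) := v.symm.trans ((Pool.Agent.H47.TCF.nx n).trans v)
    have hs0 : ∀ k, s0 (v k) = v (k + 1) := by
      intro k
      show v (v.symm (v k) + 1) = v (k + 1)
      rw [v.symm_apply_apply]
    have h0 : ∀ i : ℕ, (s0 ^ i) (v 0) = v (Fin.ofNat n i) := by
      intro i
      induction i with
      | zero =>
        have : Fin.ofNat n 0 = 0 := by apply Fin.ext; simp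
        rw [this, pow_zero, one_apply]
      | succ i ih =>
        rw [pow_succ', mul_apply, ih, hs0]
        congr 1
        apply Fin.ext
        simp [Fin.val_add]
    have h1 : ∀ y, SameCycle s0 (v 0) y := by
      intro y
      refine ⟨(v.symm y).val, ?_⟩
      rw [zpow_natCast, h0]
      have : Fin.ofNat n (v.symm y).val = v.symm y := by
        apply Fin.ext
        rw [Fin.val_ofNat, Nat.mod_eq_of_lt (v.symm y).isLt]
      rw [this, v.apply_symm_apply]
    refine ⟨s0, Finset.mem_filter.mpr ⟨Finset.mem_univ _, fun x y => (h1 x).symm.trans (h1 y), ?_⟩⟩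
    intro x
    have h2 := hv (v.symm x)
    rw [v.apply_symm_apply] at h2
    exact h2
  obtain ⟨s, hsH, hmax⟩ := Finset.exists_max_image Hs
    (fun s => (Finset.univ.filter (fun x => cl x = cl (s x))).card) hne
  obtain ⟨_, hs, hadj⟩ := Finset.mem_filter.mp hsH
  by_cases hC : ∃ x y, cl x = cl (s x) ∧ cl y = cl (s y) ∧ cl x = cl y ∧ y ≠ x ∧ y ≠ s x ∧
      y ≠ s (s x) ∧ x ≠ s y ∧ x ≠ s (s y)
  · obtain ⟨x, y, h1, h2, h3, h4, h5, h6, h7, h8⟩ := hC
    obtain ⟨φ, p1, p2, p3⟩ := exchange cl s hs hV x y h1 h2 h3 h4 h5 h6 h7 h8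
    apply Pool.Agent.H47.TCF.exists_twoFactor G φ (Equiv.refl _) _ p2 p1
    intro k
    show G.Adj k (φ k)
    rcases p3 k with h | ⟨ha, hb⟩
    · rw [h]
      exact hadj k
    · exact hcl _ _ ha.symm hb.symm
  exfalso
  have hC' : ∀ x y, cl x = cl (s x) → cl y = cl (s y) → cl x = cl y →
      y = x ∨ y = s x ∨ y = s (s x) ∨ x = s y ∨ x = s (s y) := by
    intro x y h1 h2 h3
    by_contra hcon
    push Not at hcon
    exact hC ⟨x, y, h1, h2, h3, hcon⟩
  let Fr : Finset (Fin n) := Finset.univ.filter
    (fun x => cl (s x) ≠ cl x ∧ cl (s.symm x) ≠ cl x)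
  have hFr : ∀ x, 5 ≤ (Fr.filter (fun y => cl y = cl x)).card := by
    intro x
    have hx := h11 x
    rw [Set.ncard_eq_toFinset_card', Set.toFinset_ofPred] at hx
    let N : Finset (Fin n) := (Finset.univ.filter (fun y => cl y = cl x)).filter (fun y => y ∉ Fr)
    have hN : N.card ≤ 6 := by
      by_cases hex : ∃ a, cl a = cl x ∧ cl a = cl (s a)
      · obtain ⟨a, ha1, ha2⟩ := hex
        have hsub : N ⊆ {s.symm (s.symm a), s.symm a, a, s a, s (s a), s (s (s a))} := by
          intro y hy
          obtain ⟨hy1, hy2⟩ := Finset.mem_filter.mp hy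
          have hy3 : cl y = cl x := (Finset.mem_filter.mp hy1).2
          have hy4 : cl (s y) = cl y ∨ cl (s.symm y) = cl y := by
            by_contra hcon
            push Not at hcon
            exact hy2 (Finset.mem_filter.mpr ⟨Finset.mem_univ _, hcon⟩)
          simp only [Finset.mem_insert, Finset.mem_singleton]
          rcases hy4 with h | h
          · rcases hC' a y ha2 h.symm (ha1.trans hy3.symm) with h' | h' | h' | h' | h'
            · exact Or.inr (Or.inr (Or.inl h'))
            · exact Or.inr (Or.inr (Or.inr (Or.inl h')))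
            · exact Or.inr (Or.inr (Or.inr (Or.inr (Or.inl h'))))
            · right; left
              rw [h', s.symm_apply_apply]
            · left
              rw [h', s.symm_apply_apply, s.symm_apply_apply]
          · have hz : cl (s.symm y) = cl (s (s.symm y)) := by rw [s.apply_symm_apply]; exact h
            rcases hC' a (s.symm y) ha2 hz (by rw [ha1, h, hy3]) with h' | h' | h' | h' | h'
            · right; right; right; left
              rw [← h', s.apply_symm_apply]
            · right; right; right; right; left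
              rw [← h', s.apply_symm_apply]
            · right; right; right; right; right
              rw [← h', s.apply_symm_apply]
            · right; right; left
              rw [h', s.apply_symm_apply]
            · right; left
              rw [h', s.apply_symm_apply, s.symm_apply_apply]
        refine (Finset.card_le_card hsub).trans ?_
        exact Finset.card_le_six
      · have : N = ∅ := by
          rw [Finset.eq_empty_iff_forall_notMem]
          intro y hy
          obtain ⟨hy1, hy2⟩ := Finset.mem_filter.mp hy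
          have hy3 : cl y = cl x := (Finset.mem_filter.mp hy1).2
          apply hy2
          refine Finset.mem_filter.mpr ⟨Finset.mem_univ _, ?_, ?_⟩
          · intro h
            exact hex ⟨y, hy3, h.symm⟩
          · intro h
            exact hex ⟨s.symm y, h.trans hy3, by rw [s.apply_symm_apply]; exact h⟩
        rw [this, Finset.card_empty]
        omega
    have hsplit := Finset.card_filter_add_card_filter_not
      (s := Finset.univ.filter (fun y => cl y = cl x)) (fun y => y ∈ Fr)
    have heq : (Finset.univ.filter (fun y => cl y = cl x)).filter (fun y => y ∈ Fr) =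
        Fr.filter (fun y => cl y = cl x) := by
      ext y
      simp only [Finset.mem_filter, Finset.mem_univ, true_and]
      exact and_comm
    rw [heq] at hsplit
    have hN' : ((Finset.univ.filter (fun y => cl y = cl x)).filter (fun y => ¬ y ∈ Fr)).card ≤ 6 :=
      hN
    omega
  obtain ⟨u, hu⟩ := exists_label s hs hV
  obtain ⟨W0, w1, w2, w3⟩ := transversal (fun k => cl (u k)) (Fr.map u.symm.toEmbedding) (by
    intro x
    refine (hFr (u x)).trans (le_of_eq ?_)
    apply Finset.card_bij (fun y _ => u.symm y)
    · intro y hy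
      obtain ⟨hy1, hy2⟩ := Finset.mem_filter.mp hy
      refine Finset.mem_filter.mpr ⟨Finset.mem_map_of_mem _ hy1, ?_⟩
      rw [u.apply_symm_apply]
      exact hy2
    · intro y _ z _ h
      exact u.symm.injective h
    · intro z hz
      obtain ⟨hz1, hz2⟩ := Finset.mem_filter.mp hz
      obtain ⟨y, hy, rfl⟩ := Finset.mem_map.mp hz1
      refine ⟨y, Finset.mem_filter.mpr ⟨hy, ?_⟩, rfl⟩
      have : cl (u (u.symm y)) = cl (u x) := hz2
      rwa [u.apply_symm_apply] at this)
  have hW1 : ∀ w ∈ W0.map u.toEmbedding, w ∈ Fr := by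
    intro w hw
    obtain ⟨k, hk, rfl⟩ := Finset.mem_map.mp hw
    obtain ⟨y, hy, hyk⟩ := Finset.mem_map.mp (w1 hk)
    have : u k = y := by
      rw [← hyk]
      exact u.apply_symm_apply y
    show u k ∈ Fr
    rwa [this]
  obtain ⟨π, q1, q2, q3⟩ := improve cl s hs (W0.map u.toEmbedding) (by
      obtain ⟨w, hw, _⟩ := w3 0
      exact ⟨u w, Finset.mem_map_of_mem _ hw⟩)
    (by
      intro w hw hsw
      obtain ⟨k, hk, rfl⟩ := Finset.mem_map.mp hw
      obtain ⟨m, hm, hmk⟩ := Finset.mem_map.mp hsw
      have h1 : u m = s (u k) := hmk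
      rw [hu k] at h1
      rw [u.injective h1] at hm
      exact w2 k hk hm)
    (fun w hw => (Finset.mem_filter.mp (hW1 w hw)).2)
    (by
      intro x
      obtain ⟨w, hw, hwx⟩ := w3 (u.symm x)
      refine ⟨u w, Finset.mem_map_of_mem _ hw, ?_⟩
      rw [u.apply_symm_apply] at hwx
      exact hwx)
  have hπ : π ∈ Hs := by
    refine Finset.mem_filter.mpr ⟨Finset.mem_univ _, q1, ?_⟩
    intro x
    rcases q2 x with h | h | h
    · rw [h]
      exact hadj x
    · have := hadj (π x)
      rw [h] at this
      exact this.symm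
    · exact hcl _ _ (no_fix π q1 hV x).symm h.symm
  have := hmax π hπ
  omega

end Pool.Agent.H10.SF
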