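import Mathlib

/-!
The finite Ramsey theorem for one graph, with a binomial bound.
-/

namespace Pool.Agent.H10.SF

theorem ramsey {V : Type} [DecidableEq V] (G : SimpleGraph V) (s t : ℕ) (S : Finset V)
    (hS : (s + t).choose s ≤ S.card + 1) :
    (∃ K ⊆ S, K.card = s ∧ ∀ x ∈ K, ∀ y ∈ K, x ≠ y → G.Adj x y) ∨
    (∃ I ⊆ S, I.card = t ∧ ∀ x ∈ I, ∀ y ∈ I, ¬ G.Adj x y) := by
  classical
  induction h : s + t generalizing s t S with
  | zero =>
    left
    refine ⟨∅, Finset.empty_subset _, by simp; omega, by simp⟩
  | succ m ih =>
    rcases Nat.eq_zero_or_pos s with hs | hs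
    · left
      refine ⟨∅, Finset.empty_subset _, by simp [hs], by simp⟩
    rcases Nat.eq_zero_or_pos t with ht | ht
    · right
      refine ⟨∅, Finset.empty_subset _, by simp [ht], by simp⟩
    obtain ⟨s, rfl⟩ : ∃ s', s = s' + 1 := ⟨s - 1, by omega⟩
    obtain ⟨t, rfl⟩ : ∃ t', t = t' + 1 := ⟨t - 1, by omega⟩
    have hch : (s + 1 + (t + 1)).choose (s + 1) =
        (s + (t + 1)).choose s + (s + 1 + t).choose (s + 1) := by
      have h1 : s + 1 + (t + 1) = (s + t + 1) + 1 := by ring
      have h2 : s + (t + 1) = s + t + 1 := by ring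
      have h3 : s + 1 + t = s + t + 1 := by ring
      rw [h1, h2, h3, Nat.choose_succ_succ]
    rw [hch] at hS
    have hp1 : 0 < (s + (t + 1)).choose s := Nat.choose_pos (by omega)
    have hp2 : 0 < (s + 1 + t).choose (s + 1) := Nat.choose_pos (by omega)
    have hne : S.Nonempty := by
      rw [← Finset.card_pos]; omega
    obtain ⟨v, hv⟩ := hne
    set N := S.filter (fun x => G.Adj v x) with hN
    set M := (S.erase v).filter (fun x => ¬ G.Adj v x) with hM
    have hcard : N.card + M.card + 1 = S.card := by
      have h1 : N = (S.erase v).filter (fun x => G.Adj v x) := by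
        ext x
        simp only [hN, Finset.mem_filter, Finset.mem_erase]
        constructor
        · rintro ⟨a, b⟩
          exact ⟨⟨b.ne', a⟩, b⟩
        · rintro ⟨⟨_, a⟩, b⟩
          exact ⟨a, b⟩
      rw [h1, hM, Finset.card_filter_add_card_filter_not, Finset.card_erase_of_mem hv]
      have : 0 < S.card := Finset.card_pos.2 ⟨v, hv⟩
      omega
    by_cases hc : (s + (t + 1)).choose s ≤ N.card + 1
    · rcases ih s (t + 1) N hc (by omega) with ⟨K, hK, hKc, hKa⟩ | ⟨I, hI, hIc, hIa⟩
      · left
        have hvK : v ∉ K := fun hvK => by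
          have := hK hvK
          simp [hN] at this
        refine ⟨insert v K, ?_, ?_, ?_⟩
        · intro x hx
          rcases Finset.mem_insert.1 hx with rfl | hx
          · exact hv
          · exact (Finset.mem_filter.1 (hK hx)).1
        · rw [Finset.card_insert_of_notMem hvK, hKc]
        · intro x hx y hy hxy
          rcases Finset.mem_insert.1 hx with hx' | hx'
          · rcases Finset.mem_insert.1 hy with hy' | hy'
            · exact absurd (hx'.trans hy'.symm) hxy
            · rw [hx']; exact (Finset.mem_filter.1 (hK hy')).2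
          · rcases Finset.mem_insert.1 hy with hy' | hy'
            · rw [hy']; exact (Finset.mem_filter.1 (hK hx')).2.symm
            · exact hKa x hx' y hy' hxy
      · right
        exact ⟨I, fun x hx => (Finset.mem_filter.1 (hI hx)).1, hIc, hIa⟩
    · have hc2 : (s + 1 + t).choose (s + 1) ≤ M.card + 1 := by omega
      rcases ih (s + 1) t M hc2 (by omega) with ⟨K, hK, hKc, hKa⟩ | ⟨I, hI, hIc, hIa⟩
      · left
        exact ⟨K, fun x hx => Finset.mem_of_mem_erase (Finset.mem_filter.1 (hK hx)).1, hKc, hKa⟩
      · right
        have hvI : v ∉ I := fun hvI => by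
          have := hI hvI
          simp [hM] at this
        refine ⟨insert v I, ?_, ?_, ?_⟩
        · intro x hx
          rcases Finset.mem_insert.1 hx with rfl | hx
          · exact hv
          · exact Finset.mem_of_mem_erase (Finset.mem_filter.1 (hI hx)).1
        · rw [Finset.card_insert_of_notMem hvI, hIc]
        · intro x hx y hy
          rcases Finset.mem_insert.1 hx with hx' | hx'
          · rcases Finset.mem_insert.1 hy with hy' | hy'
            · rw [hx', hy']; exact G.irrefl
            · rw [hx']; exact (Finset.mem_filter.1 (hI hy')).2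
          · rcases Finset.mem_insert.1 hy with hy' | hy'
            · rw [hy']; exact fun hh => (Finset.mem_filter.1 (hI hx')).2 hh.symm
            · exact hIa x hx' y hy'

end Pool.Agent.H10.SF
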