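import Mathlib
import Pool.Agent.H10.SF.F

namespace Pool.Agent.H10.SF

/-- A maximal family of pairwise disjoint cliques with `22` vertices. -/
theorem G_family {V : Type} [Fintype V] [DecidableEq V] (G : SimpleGraph V) :
    ∃ Q : Finset (Finset V), (∀ K ∈ Q, K.card = 22 ∧ ∀ x ∈ K, ∀ y ∈ K, x ≠ y → G.Adj x y) ∧
      (∀ K ∈ Q, ∀ K' ∈ Q, ∀ x ∈ K, x ∈ K' → K = K') ∧
      ∀ K : Finset V, K.card = 22 → (∀ x ∈ K, ∀ y ∈ K, x ≠ y → G.Adj x y) →
        ∃ K' ∈ Q, ∃ x ∈ K, x ∈ K' := by
  classical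
  let F : Finset (Finset (Finset V)) := Finset.univ.filter (fun Q =>
    (∀ K ∈ Q, K.card = 22 ∧ ∀ x ∈ K, ∀ y ∈ K, x ≠ y → G.Adj x y) ∧
      (∀ K ∈ Q, ∀ K' ∈ Q, ∀ x ∈ K, x ∈ K' → K = K'))
  have hF : F.Nonempty := ⟨∅, by simp [F]⟩
  obtain ⟨Q, hQ, hmax⟩ := Finset.exists_max_image F (fun Q => Q.card) hF
  have hQ' := (Finset.mem_filter.1 hQ).2
  refine ⟨Q, hQ'.1, hQ'.2, ?_⟩
  intro K hK hcl
  by_contra hcon
  push Not at hcon
  have hKne : K.Nonempty := by
    rw [← Finset.card_pos, hK]; norm_num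
  have hKQ : K ∉ Q := by
    intro h
    obtain ⟨x, hx⟩ := hKne
    exact hcon K h x hx hx
  have hmem : insert K Q ∈ F := by
    refine Finset.mem_filter.2 ⟨Finset.mem_univ _, ?_, ?_⟩
    · intro K' hK'
      rcases Finset.mem_insert.1 hK' with h | h
      · subst h; exact ⟨hK, hcl⟩
      · exact hQ'.1 K' h
    · intro K1 h1 K2 h2 x hx1 hx2
      rcases Finset.mem_insert.1 h1 with h1 | h1 <;> rcases Finset.mem_insert.1 h2 with h2 | h2
      · rw [h1, h2]
      · exact absurd hx2 (hcon K2 h2 x (h1 ▸ hx1))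
      · exact absurd hx1 (hcon K1 h1 x (h2 ▸ hx2))
      · exact hQ'.2 K1 h1 K2 h2 x hx1 hx2
  have := hmax _ hmem
  rw [Finset.card_insert_of_notMem hKQ] at this
  omega

/-- From a cover by disjoint large cliques to a colouring. -/
theorem G_of_cover {V : Type} [Fintype V] [DecidableEq V] (G : SimpleGraph V)
    (C : Finset V → Prop) (h1 : ∀ x, ∃ c, C c ∧ x ∈ c)
    (h2 : ∀ c c' x, C c → C c' → x ∈ c → x ∈ c' → c = c')
    (h3 : ∀ c, C c → ∀ x ∈ c, ∀ y ∈ c, x ≠ y → G.Adj x y)
    (h4 : ∀ c, C c → 11 ≤ c.card) :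
    ∃ cl : V → Finset V, (∀ x y, x ≠ y → cl x = cl y → G.Adj x y) ∧
      ∀ x, 11 ≤ ({y | cl y = cl x} : Set V).ncard := by
  choose cl hcl using h1
  refine ⟨cl, ?_, ?_⟩
  · intro x y hxy h
    refine h3 (cl x) (hcl x).1 x (hcl x).2 y ?_ hxy
    rw [h]; exact (hcl y).2
  · intro x
    have hsub : ((cl x : Finset V) : Set V) ⊆ {y | cl y = cl x} := by
      intro y hy
      exact h2 (cl y) (cl x) y (hcl y).1 (hcl x).1 (hcl y).2 (by exact_mod_cast hy)
    have := Set.ncard_le_ncard hsub (Set.toFinite _)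
    rw [Set.ncard_coe_finset] at this
    exact (h4 _ (hcl x).1).trans this

/-- Hall's theorem with demands. -/
theorem G_hall {V : Type} [Fintype V] [DecidableEq V] (G : SimpleGraph V) [DecidableRel G.Adj]
    (R1 R2 : ℕ)
    (hR1 : 0 < R1) (Q : Finset (Finset V)) (L : Finset V)
    (hQ22 : ∀ K ∈ Q, K.card = 22) (hQd : ∀ K ∈ Q, ∀ K' ∈ Q, ∀ x ∈ K, x ∈ K' → K = K')
    (hlow : ∀ u, (L.filter (fun v => G.Adj v u)).card ≤ R1)
    (hhigh : ∀ v ∈ L, 2 * R1 * R2 ≤ (Finset.univ.filter (fun u => G.Adj v u ∧ u ∉ L)).card) :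
    ∃ f : (Q × Fin 11) ⊕ (L × Fin R2) → V, Function.Injective f ∧
      (∀ (K : Q) (i : Fin 11), f (Sum.inl (K, i)) ∈ (K : Finset V)) ∧
      (∀ (v : L) (j : Fin R2), G.Adj v (f (Sum.inr (v, j))) ∧ f (Sum.inr (v, j)) ∉ L) := by
  classical
  let t : (Q × Fin 11) ⊕ (L × Fin R2) → Finset V := fun a =>
    match a with
    | Sum.inl p => (p.1 : Finset V)
    | Sum.inr p => Finset.univ.filter (fun u => G.Adj p.1 u ∧ u ∉ L)
  have key : ∃ f : (Q × Fin 11) ⊕ (L × Fin R2) → V, Function.Injective f ∧ ∀ a, f a ∈ t a := by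
    rw [← Finset.all_card_le_biUnion_card_iff_exists_injective]
    intro S
    let A : Finset Q := Finset.univ.filter (fun K => ∃ i, Sum.inl (K, i) ∈ S)
    let B : Finset L := Finset.univ.filter (fun v => ∃ j, Sum.inr (v, j) ∈ S)
    have hS : S.card ≤ 11 * A.card + R2 * B.card := by
      have hsub : S ⊆ (A ×ˢ (Finset.univ : Finset (Fin 11))).disjSum
          (B ×ˢ (Finset.univ : Finset (Fin R2))) := by
        intro a ha
        rcases a with ⟨K, i⟩ | ⟨v, j⟩
        · refine Finset.inl_mem_disjSum.2 (Finset.mem_product.2 ⟨?_, Finset.mem_univ _⟩)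
          exact Finset.mem_filter.2 ⟨Finset.mem_univ _, i, ha⟩
        · refine Finset.inr_mem_disjSum.2 (Finset.mem_product.2 ⟨?_, Finset.mem_univ _⟩)
          exact Finset.mem_filter.2 ⟨Finset.mem_univ _, j, ha⟩
      have := Finset.card_le_card hsub
      rw [Finset.card_disjSum, Finset.card_product, Finset.card_product, Finset.card_univ,
        Finset.card_univ, Fintype.card_fin, Fintype.card_fin] at this
      nlinarith
    let X : Finset V := A.biUnion (fun K => (K : Finset V))
    let Y : Finset V := B.biUnion (fun v => Finset.univ.filter (fun u => G.Adj v u ∧ u ∉ L))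
    have hX : X.card = 22 * A.card := by
      rw [Finset.card_biUnion]
      · rw [Finset.sum_congr rfl (fun (K : Q) _ => hQ22 K K.2), Finset.sum_const, smul_eq_mul,
          mul_comm]
      · intro K _ K' _ hKK'
        rw [Function.onFun, Finset.disjoint_left]
        intro x hx hx'
        exact hKK' (Subtype.ext (hQd K K.2 K' K'.2 x hx hx'))
    have hY : 2 * R2 * B.card ≤ Y.card := by
      have hm : B.card * (2 * R1 * R2) ≤ Y.card * R1 := by
        refine Finset.card_mul_le_card_mul (fun (v : L) (u : V) => G.Adj v u) ?_ ?_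
        · intro v hv
          refine (hhigh v v.2).trans (Finset.card_le_card ?_)
          intro u hu
          have hu' := (Finset.mem_filter.1 hu).2
          refine Finset.mem_filter.2 ⟨Finset.mem_biUnion.2 ⟨v, hv, ?_⟩, hu'.1⟩
          exact Finset.mem_filter.2 ⟨Finset.mem_univ _, hu'⟩
        · intro u _
          refine le_trans ?_ (hlow u)
          rw [← Finset.card_map (Function.Embedding.subtype (fun v => v ∈ L))]
          refine Finset.card_le_card ?_
          intro v hv
          obtain ⟨w, hw, rfl⟩ := Finset.mem_map.1 hv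
          exact Finset.mem_filter.2 ⟨w.2, (Finset.mem_filter.1 hw).2⟩
      have h' : (2 * R2 * B.card) * R1 ≤ Y.card * R1 := by
        calc (2 * R2 * B.card) * R1 = B.card * (2 * R1 * R2) := by ring
          _ ≤ Y.card * R1 := hm
      exact Nat.le_of_mul_le_mul_right h' hR1
    have hXN : X ⊆ S.biUnion t := by
      intro x hx
      obtain ⟨K, hK, hxK⟩ := Finset.mem_biUnion.1 hx
      obtain ⟨i, hi⟩ := (Finset.mem_filter.1 hK).2
      exact Finset.mem_biUnion.2 ⟨_, hi, hxK⟩
    have hYN : Y ⊆ S.biUnion t := by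
      intro x hx
      obtain ⟨v, hv, hxv⟩ := Finset.mem_biUnion.1 hx
      obtain ⟨j, hj⟩ := (Finset.mem_filter.1 hv).2
      exact Finset.mem_biUnion.2 ⟨_, hj, hxv⟩
    have h1 := Finset.card_le_card hXN
    have h2 := Finset.card_le_card hYN
    have h3 : 2 * R2 * B.card = 2 * (R2 * B.card) := by ring
    omega
  obtain ⟨f, hf, hft⟩ := key
  refine ⟨f, hf, ?_, ?_⟩
  · intro K i
    exact hft (Sum.inl (K, i))
  · intro v j
    exact (Finset.mem_filter.1 (hft (Sum.inr (v, j)))).2

theorem exists_partition {V : Type} [Fintype V] [DecidableEq V] (G : SimpleGraph V) (r : ℕ)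
    (hstar : ∀ v, ∀ S : Finset V, (∀ x ∈ S, G.Adj v x) → (∀ x ∈ S, ∀ y ∈ S, ¬ G.Adj x y) →
      S.card < r)
    (hdeg : ∀ v, 3 * (r + 22).choose 22 * (r + 10).choose 10 ≤ (G.neighborSet v).ncard) :
    ∃ cl : V → Finset V, (∀ x y, x ≠ y → cl x = cl y → G.Adj x y) ∧
      ∀ x, 11 ≤ ({y | cl y = cl x} : Set V).ncard := by
  classical
  obtain ⟨Q, hQ, hQd, hQm⟩ := G_family G
  let L : Finset V := Finset.univ.filter (fun x => ∀ K ∈ Q, x ∉ K)
  have hLQ : ∀ x ∈ L, ∀ K ∈ Q, x ∉ K := fun x hx => (Finset.mem_filter.1 hx).2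
  have hR1 : 0 < (r + 22).choose 22 := Nat.choose_pos (by omega)
  have hR2 : 0 < (r + 10).choose 10 := Nat.choose_pos (by omega)
  -- few neighbours in `L`
  have hlow : ∀ u, (L.filter (fun v => G.Adj v u)).card ≤ (r + 22).choose 22 := by
    intro u
    by_contra hcon
    push Not at hcon
    rcases ramsey G 22 r (L.filter (fun v => G.Adj v u)) (by rw [add_comm 22 r]; omega) with h | h
    · obtain ⟨K, hKs, hKc, hK⟩ := h
      obtain ⟨K', hK', x, hx, hx'⟩ := hQm K hKc hK
      exact hLQ x (Finset.mem_filter.1 (hKs hx)).1 K' hK' hx'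
    · obtain ⟨I, hIs, hIc, hI⟩ := h
      have := hstar u I (fun x hx => ((Finset.mem_filter.1 (hIs hx)).2).symm) hI
      omega
  have hhigh : ∀ v ∈ L, 2 * (r + 22).choose 22 * (r + 10).choose 10 ≤
      (Finset.univ.filter (fun u => G.Adj v u ∧ u ∉ L)).card := by
    intro v _
    have h1 := hdeg v
    have h2 : (G.neighborSet v).ncard = (Finset.univ.filter (fun u => G.Adj v u)).card := by
      rw [← Set.ncard_coe_finset]
      congr 1
      ext u
      simp
    have h3 : (Finset.univ.filter (fun u => G.Adj v u)).card =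
        (Finset.univ.filter (fun u => G.Adj v u ∧ u ∉ L)).card +
        (L.filter (fun u => G.Adj u v)).card := by
      rw [← Finset.card_union_of_disjoint]
      · congr 1
        ext u
        simp only [Finset.mem_filter, Finset.mem_univ, true_and, Finset.mem_union]
        constructor
        · intro h
          by_cases hu : u ∈ L
          · exact Or.inr ⟨hu, h.symm⟩
          · exact Or.inl ⟨h, hu⟩
        · rintro (h | h)
          · exact h.1
          · exact h.2.symm
      · rw [Finset.disjoint_left]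
        intro u hu hu'
        exact (Finset.mem_filter.1 hu).2.2 (Finset.mem_filter.1 hu').1
    have h4 := hlow v
    have h5 : (r + 22).choose 22 ≤ (r + 22).choose 22 * (r + 10).choose 10 :=
      Nat.le_mul_of_pos_right _ hR2
    have h6 : 3 * (r + 22).choose 22 * (r + 10).choose 10 =
        3 * ((r + 22).choose 22 * (r + 10).choose 10) := by ring
    have h7 : 2 * (r + 22).choose 22 * (r + 10).choose 10 =
        2 * ((r + 22).choose 22 * (r + 10).choose 10) := by ring
    omega
  obtain ⟨f, hf, hf1, hf2⟩ := G_hall G _ _ hR1 Q L (fun K hK => (hQ K hK).1) hQd hlow hhigh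
  -- the small cliques
  have hK : ∀ v : L, ∃ K : Finset V, K ⊆ Finset.univ.image (fun j => f (Sum.inr (v, j))) ∧
      K.card = 10 ∧ ∀ x ∈ K, ∀ y ∈ K, x ≠ y → G.Adj x y := by
    intro v
    have hcard : (Finset.univ.image (fun j => f (Sum.inr (v, j)))).card =
        (r + 10).choose 10 := by
      rw [Finset.card_image_of_injective _ (fun a b h => by
        have := hf h
        simpa using this), Finset.card_univ, Fintype.card_fin]
    rcases ramsey G 10 r (Finset.univ.image (fun j => f (Sum.inr (v, j))))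
      (by rw [hcard, add_comm 10 r]; omega) with h | h
    · obtain ⟨K, h1, h2, h3⟩ := h
      exact ⟨K, h1, h2, h3⟩
    · exfalso
      obtain ⟨I, hIs, hIc, hI⟩ := h
      have := hstar v I (fun x hx => by
        obtain ⟨j, _, rfl⟩ := Finset.mem_image.1 (hIs hx)
        exact (hf2 v j).1) hI
      omega
  choose K hKs hKc hKcl using hK
  have hKL : ∀ v : L, ∀ x ∈ K v, x ∉ L := by
    intro v x hx
    obtain ⟨j, _, rfl⟩ := Finset.mem_image.1 (hKs v hx)
    exact (hf2 v j).2
  have hKadj : ∀ v : L, ∀ x ∈ K v, G.Adj v x := by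
    intro v x hx
    obtain ⟨j, _, rfl⟩ := Finset.mem_image.1 (hKs v hx)
    exact (hf2 v j).1
  refine G_of_cover G (fun c => (∃ v : L, c = insert (v : V) (K v)) ∨
    (∃ K' ∈ Q, c = K'.filter (fun x => ∀ v : L, x ∉ K v))) ?_ ?_ ?_ ?_
  · intro x
    by_cases hx : x ∈ L
    · exact ⟨_, Or.inl ⟨⟨x, hx⟩, rfl⟩, Finset.mem_insert_self _ _⟩
    · by_cases hx2 : ∃ v : L, x ∈ K v
      · obtain ⟨v, hv⟩ := hx2
        exact ⟨_, Or.inl ⟨v, rfl⟩, Finset.mem_insert_of_mem hv⟩
      · push Not at hx2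
        have : ∃ K' ∈ Q, x ∈ K' := by
          by_contra hcon
          push Not at hcon
          exact hx (Finset.mem_filter.2 ⟨Finset.mem_univ _, hcon⟩)
        obtain ⟨K', hK', hxK'⟩ := this
        exact ⟨_, Or.inr ⟨K', hK', rfl⟩, Finset.mem_filter.2 ⟨hxK', hx2⟩⟩
  · intro c c' x hc hc' hx hx'
    rcases hc with ⟨v, rfl⟩ | ⟨K1, hK1, rfl⟩ <;> rcases hc' with ⟨v', rfl⟩ | ⟨K2, hK2, rfl⟩
    · have hvv : v = v' := by
        rcases Finset.mem_insert.1 hx with h | h <;> rcases Finset.mem_insert.1 hx' with h' | h'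
        · exact Subtype.ext (h.symm.trans h')
        · exact absurd (by rw [h]; exact v.2) (hKL v' x h')
        · exact absurd (by rw [h']; exact v'.2) (hKL v x h)
        · obtain ⟨j, _, hj⟩ := Finset.mem_image.1 (hKs v h)
          obtain ⟨j', _, hj'⟩ := Finset.mem_image.1 (hKs v' h')
          have := hf (hj.trans hj'.symm)
          simp only [Sum.inr.injEq, Prod.mk.injEq] at this
          exact this.1
      rw [hvv]
    · exfalso
      have hx2 := Finset.mem_filter.1 hx'
      rcases Finset.mem_insert.1 hx with h | h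
      · exact hLQ x (by rw [h]; exact v.2) K2 hK2 hx2.1
      · exact hx2.2 v h
    · exfalso
      have hx2 := Finset.mem_filter.1 hx
      rcases Finset.mem_insert.1 hx' with h | h
      · exact hLQ x (by rw [h]; exact v'.2) K1 hK1 hx2.1
      · exact hx2.2 v' h
    · rw [hQd K1 hK1 K2 hK2 x (Finset.mem_filter.1 hx).1 (Finset.mem_filter.1 hx').1]
  · intro c hc x hx y hy hxy
    rcases hc with ⟨v, rfl⟩ | ⟨K1, hK1, rfl⟩
    · rcases Finset.mem_insert.1 hx with h | h <;> rcases Finset.mem_insert.1 hy with h' | h'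
      · exact absurd (h.trans h'.symm) hxy
      · rw [h]; exact hKadj v y h'
      · rw [h']; exact (hKadj v x h).symm
      · exact hKcl v x h y h' hxy
    · exact (hQ K1 hK1).2 x (Finset.mem_filter.1 hx).1 y (Finset.mem_filter.1 hy).1 hxy
  · intro c hc
    rcases hc with ⟨v, rfl⟩ | ⟨K1, hK1, rfl⟩
    · rw [Finset.card_insert_of_notMem (fun h => hKL v v h v.2), hKc v]
    · have hsub : Finset.univ.image (fun i : Fin 11 => f (Sum.inl (⟨K1, hK1⟩, i))) ⊆
          K1.filter (fun x => ∀ v : L, x ∉ K v) := by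
        intro x hx
        obtain ⟨i, _, rfl⟩ := Finset.mem_image.1 hx
        refine Finset.mem_filter.2 ⟨hf1 ⟨K1, hK1⟩ i, ?_⟩
        intro v hv
        obtain ⟨j, _, hj⟩ := Finset.mem_image.1 (hKs v hv)
        have := hf hj
        simp at this
      have := Finset.card_le_card hsub
      rw [Finset.card_image_of_injective _ (fun a b h => by
        have := hf h
        simpa using this), Finset.card_univ, Fintype.card_fin] at this
      exact this

end Pool.Agent.H10.SF
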