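import Mathlib
import Pool.Agent.H52.TwoFacMain

/-!
The examples of the lower bound: a Hamiltonian graph on `n ≥ 6 * 9 ^ k` vertices with minimum
degree at least `k` without a 2-factor with exactly two cycles.
-/

set_option linter.unusedSectionVars false

namespace Pool.Agent.H10.SF

open SimpleGraph H52TF

/-- Shorthand: a spanning 2-regular subgraph with exactly two connected components. -/
def TwoTwo {V : Type} (G : SimpleGraph V) : Prop :=
  ∃ F : SimpleGraph V, F ≤ G ∧ (∀ v, (F.neighborSet v).ncard = 2) ∧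
    Nat.card F.ConnectedComponent = 2

theorem transfer {W : Type} [Fintype W] [DecidableEq W] {n : ℕ} (hn : Fintype.card W = n)
    (G : SimpleGraph W) (k : ℕ) (hH : G.IsHamiltonian)
    (hd : ∀ v, k ≤ (G.neighborSet v).ncard) (hno : ¬ TwoTwo G)
    (hn1 : n ≠ 1) :
    ∃ G' : SimpleGraph (Fin n), G'.IsHamiltonian ∧ (∀ v, k ≤ (G'.neighborSet v).ncard) ∧
      ¬ TwoTwo G' := by
  let e : W ≃ Fin n := Fintype.equivFinOfCardEq hn
  let G' : SimpleGraph (Fin n) := G.comap e.symm
  have hadj : ∀ a b, G'.Adj a b ↔ G.Adj (e.symm a) (e.symm b) := fun a b => Iff.rfl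
  refine ⟨G', ?_, ?_, ?_⟩
  · intro _
    obtain ⟨a, p, hp⟩ := hH (by rw [hn]; exact hn1)
    let f : G →g G' := ⟨e, by
      intro a b h
      rw [hadj, e.symm_apply_apply, e.symm_apply_apply]
      exact h⟩
    exact ⟨_, p.map f, hp.map e.bijective⟩
  · intro v
    have h1 := hd (e.symm v)
    have h2 : G'.neighborSet v = e '' (G.neighborSet (e.symm v)) := by
      ext x
      rw [SimpleGraph.mem_neighborSet, hadj]
      constructor
      · intro h
        exact ⟨e.symm x, h, e.apply_symm_apply x⟩
      · rintro ⟨y, hy, rfl⟩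
        rw [e.symm_apply_apply]
        exact hy
    rw [h2, Set.ncard_image_of_injective _ e.injective]
    exact h1
  · rintro ⟨F', hF', hdeg, hcc⟩
    apply hno
    refine ⟨F'.comap e, ?_, ?_, ?_⟩
    · intro a b h
      have h1 : G'.Adj (e a) (e b) := hF' h
      rw [hadj, e.symm_apply_apply, e.symm_apply_apply] at h1
      exact h1
    · intro v
      rw [← hdeg (e v)]
      have h2 : F'.neighborSet (e v) = e '' ((F'.comap e).neighborSet v) := by
        ext x
        rw [SimpleGraph.mem_neighborSet]
        constructor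
        · intro h
          refine ⟨e.symm x, ?_, e.apply_symm_apply x⟩
          rw [SimpleGraph.mem_neighborSet, SimpleGraph.comap_adj, e.apply_symm_apply]
          exact h
        · rintro ⟨y, hy, rfl⟩
          exact hy
      rw [h2, Set.ncard_image_of_injective _ e.injective]
    · rw [← hcc]
      exact Nat.card_congr (SimpleGraph.Iso.comap e F').connectedComponentEquiv

/-- From a gap structure to an example. -/
theorem example_of_gapStr {Y : Type} [Fintype Y] [DecidableEq Y] (S : GapStr (Option Y))
    (hodd : Odd (Fintype.card (Option Y))) (hY : 1 ≤ Fintype.card Y) (k n : ℕ)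
    (hk : ∀ v, k + 1 ≤ (S.P v).card) (hn : 2 * Fintype.card (Option Y) ≤ n) :
    ∃ G : SimpleGraph (Fin n), G.IsHamiltonian ∧ (∀ v, k ≤ (G.neighborSet v).ncard) ∧
      ¬ TwoTwo G := by
  obtain ⟨j, rfl⟩ : ∃ j, n = 2 * Fintype.card (Option Y) + j := ⟨_, (Nat.add_sub_of_le hn).symm⟩
  apply transfer (card_Wt j) (gr S j) k (gr_isHamiltonian S j hY) (gr_minDegree S j k hk)
  · rintro ⟨F, hF, hdeg, hcc⟩
    exact no_two S j hodd hY F hF hdeg hcc
  · rw [Fintype.card_option]
    omega

/-- The examples. -/
theorem exists_example (k n : ℕ) (hn : 6 * 9 ^ k ≤ n) :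
    ∃ G : SimpleGraph (Fin n), G.IsHamiltonian ∧ (∀ v, k ≤ (G.neighborSet v).ncard) ∧
      ¬ TwoTwo G := by
  rcases Nat.eq_zero_or_pos k with rfl | hk0
  · apply example_of_gapStr (baseGap.refine none)
    · decide
    · simp
    · intro v
      rw [zero_add, Nat.one_le_iff_ne_zero, Finset.card_ne_zero]
      exact ⟨v, GapStr.memP _ v⟩
    · simpa using hn
  · obtain ⟨Y, i1, i2, S, _, hodd, hk, hcard⟩ := exists_gapStr (k + 1) (by omega)
    have h1 : 1 ≤ Fintype.card Y := by
      have h1 := hk none
      have h2 := Finset.card_le_univ (S.P none)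
      rw [Fintype.card_option] at h2
      omega
    apply example_of_gapStr S hodd h1 k n hk
    have h2 : 3 ^ (2 * (k + 1) - 1) = 3 * 9 ^ k := by
      have : 2 * (k + 1) - 1 = 2 * k + 1 := by omega
      rw [this, pow_succ, pow_mul]
      norm_num [mul_comm]
    rw [h2] at hcard
    omega

end Pool.Agent.H10.SF
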